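import Pool.Agent.N550.CQ.Stm

/-!
# Project CQ: compact sets of `H^1`-measure zero are covered by disjoint small balls
-/

set_option autoImplicit false

open Set Filter Topology Metric Function MeasureTheory
open scoped Manifold ContDiff ENNReal

noncomputable section

namespace Pool.Agent.N550.CQ.Balls

open Pool.Agent.Y522 Pool.Agent.N550.KH Pool.Agent.N550.CQ

/-- Two intersecting closed balls lie in a ball whose radius is the sum of the radii. -/
theorem merge {n : ℕ} {x y : E n} {r s : ℝ} (hr : 0 < r) (hs : 0 < s)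
    (h : ¬ Disjoint (closedBall x r) (closedBall y s)) :
    ∃ z : E n, closedBall x r ⊆ closedBall z (r + s) ∧ ball x r ⊆ ball z (r + s) ∧
      ball y s ⊆ ball z (r + s) := by
  rw [Set.not_disjoint_iff] at h
  obtain ⟨u, hu1, hu2⟩ := h
  have hd : dist x y ≤ r + s := by
    have h1 := dist_triangle x u y
    rw [mem_closedBall] at hu1 hu2
    rw [dist_comm x u] at h1
    linarith
  have hrs : 0 < r + s := by linarith
  refine ⟨AffineMap.lineMap x y (s / (r + s)), ?_, ?_, ?_⟩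
  · apply closedBall_subset_closedBall'
    have : dist x (AffineMap.lineMap x y (s / (r + s))) ≤ s := by
      rw [dist_comm, dist_lineMap_left, Real.norm_of_nonneg (by positivity)]
      calc s / (r + s) * dist x y ≤ s / (r + s) * (r + s) :=
            mul_le_mul_of_nonneg_left hd (by positivity)
        _ = s := by field_simp
    linarith
  · apply ball_subset_ball'
    have : dist x (AffineMap.lineMap x y (s / (r + s))) ≤ s := by
      rw [dist_comm, dist_lineMap_left, Real.norm_of_nonneg (by positivity)]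
      calc s / (r + s) * dist x y ≤ s / (r + s) * (r + s) :=
            mul_le_mul_of_nonneg_left hd (by positivity)
        _ = s := by field_simp
    linarith
  · apply ball_subset_ball'
    have : dist y (AffineMap.lineMap x y (s / (r + s))) ≤ r := by
      have e1 : 1 - s / (r + s) = r / (r + s) := by
        field_simp
        ring
      rw [dist_comm, dist_lineMap_right, e1, Real.norm_of_nonneg (by positivity)]
      calc r / (r + s) * dist x y ≤ r / (r + s) * (r + s) :=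
            mul_le_mul_of_nonneg_left hd (by positivity)
        _ = r := by field_simp
    linarith

/-- the families of balls which we use -/
def Fam {n : ℕ} (K : Set (E n)) (η : ℝ) (s : Finset (E n × ℝ)) : Prop :=
  (∀ p ∈ s, 0 < p.2 ∧ (closedBall p.1 p.2 ∩ K).Nonempty) ∧ ∑ p ∈ s, p.2 < η ∧
    K ⊆ ⋃ p ∈ s, ball p.1 p.2

theorem exists_fam {n : ℕ} {K : Set (E n)} (hK : IsCompact K)
    (h0 : Measure.hausdorffMeasure 1 K = 0) {ε : ℝ} (hε : 0 < ε) :
    ∃ s : Finset (E n × ℝ), Fam K (2 * ε) s := by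
  classical
  rw [Measure.hausdorffMeasure_apply] at h0
  have h1 : (⨅ (t : ℕ → Set (E n)) (_ : K ⊆ ⋃ n, t n) (_ : ∀ n, ediam (t n) ≤ 1),
          ∑' n, ⨆ _ : (t n).Nonempty, ediam (t n) ^ (1 : ℝ)) < ENNReal.ofReal ε := by
    refine lt_of_le_of_lt ?_ (ENNReal.ofReal_pos.2 hε)
    rw [← h0]
    exact le_iSup₂ (f := fun (r : ℝ≥0∞) (_ : 0 < r) =>
      ⨅ (t : ℕ → Set (E n)) (_ : K ⊆ ⋃ n, t n) (_ : ∀ n, ediam (t n) ≤ r),
          ∑' n, ⨆ _ : (t n).Nonempty, ediam (t n) ^ (1 : ℝ)) 1 one_pos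
  simp only [iInf_lt_iff] at h1
  obtain ⟨t, ht, hd, hsum⟩ := h1
  have hdt : ∀ i, (t i).Nonempty → ediam (t i) =
      ⨆ _ : (t i).Nonempty, ediam (t i) ^ (1 : ℝ) := by
    intro i hi
    simp [hi]
  obtain ⟨e, he, hesum⟩ := ENNReal.exists_pos_sum_of_countable
    (ENNReal.ofReal_pos.2 hε).ne' ℕ
  let I : Set ℕ := {i | (t i ∩ K).Nonempty}
  have hx : ∀ i, ∃ x : E n, i ∈ I → x ∈ t i ∩ K := by
    intro i
    by_cases hi : i ∈ I
    · obtain ⟨x, hx⟩ := hi
      exact ⟨x, fun _ => hx⟩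
    · exact ⟨0, fun h => absurd h hi⟩
  choose x hx using hx
  let r : ℕ → ℝ := fun i => (ediam (t i)).toReal + e i
  have hrpos : ∀ i, 0 < r i := fun i =>
    add_pos_of_nonneg_of_pos ENNReal.toReal_nonneg (by exact_mod_cast he i)
  have hfin : ∀ i, ediam (t i) ≠ ⊤ := fun i => ne_top_of_le_ne_top ENNReal.one_ne_top (hd i)
  have hcov : K ⊆ ⋃ i ∈ I, ball (x i) (r i) := by
    intro y hy
    obtain ⟨i, hi⟩ := mem_iUnion.1 (ht hy)
    have hiI : i ∈ I := ⟨y, hi, hy⟩
    refine mem_iUnion₂.2 ⟨i, hiI, ?_⟩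
    rw [mem_ball]
    have h2 : edist y (x i) ≤ ediam (t i) := Metric.edist_le_ediam_of_mem hi (hx i hiI).1
    have h3 : dist y (x i) ≤ (ediam (t i)).toReal := by
      rw [dist_edist]
      exact ENNReal.toReal_mono (hfin i) h2
    have h4 : (0 : ℝ) < e i := by exact_mod_cast he i
    show dist y (x i) < (ediam (t i)).toReal + e i
    linarith
  obtain ⟨J, hJI, hJf, hJ⟩ := hK.elim_finite_subcover_image (b := I)
    (c := fun i => ball (x i) (r i)) (fun i _ => isOpen_ball) hcov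
  let J' : Finset ℕ := hJf.toFinset
  refine ⟨J'.image (fun i => (x i, r i)), ?_, ?_, ?_⟩
  · intro p hp
    rw [Finset.mem_image] at hp
    obtain ⟨i, hi, rfl⟩ := hp
    have hiI : i ∈ I := hJI (hJf.mem_toFinset.1 hi)
    exact ⟨hrpos i, x i, mem_closedBall_self (hrpos i).le, (hx i hiI).2⟩
  · have h5 : ∑ p ∈ J'.image (fun i => (x i, r i)), p.2 ≤ ∑ i ∈ J', r i := by
      have h6 := Finset.sum_image_le_of_nonneg (s := J') (g := fun i => (x i, r i))
        (f := fun p : E n × ℝ => p.2) (by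
          intro p hp
          rw [Finset.mem_image] at hp
          obtain ⟨i, hi, rfl⟩ := hp
          exact (hrpos i).le)
      exact h6
    refine lt_of_le_of_lt h5 ?_
    have h7 : ENNReal.ofReal (∑ i ∈ J', r i) < ENNReal.ofReal (2 * ε) := by
      rw [ENNReal.ofReal_sum_of_nonneg (fun i _ => (hrpos i).le)]
      have h8 : ∀ i ∈ J', ENNReal.ofReal (r i) =
          (⨆ _ : (t i).Nonempty, ediam (t i) ^ (1 : ℝ)) + e i := by
        intro i hi
        have hiI : i ∈ I := hJI (hJf.mem_toFinset.1 hi)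
        have hne : (t i).Nonempty := ⟨x i, (hx i hiI).1⟩
        rw [← hdt i hne]
        show ENNReal.ofReal ((ediam (t i)).toReal + e i) = _
        rw [ENNReal.ofReal_add ENNReal.toReal_nonneg (by positivity),
          ENNReal.ofReal_toReal (hfin i), ENNReal.ofReal_coe_nnreal]
      rw [Finset.sum_congr rfl h8, Finset.sum_add_distrib]
      have h9 : ENNReal.ofReal (2 * ε) = ENNReal.ofReal ε + ENNReal.ofReal ε := by
        rw [← ENNReal.ofReal_add hε.le hε.le]
        congr 1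
        ring
      rw [h9]
      exact ENNReal.add_lt_add (lt_of_le_of_lt (ENNReal.sum_le_tsum _) hsum)
        (lt_of_le_of_lt (ENNReal.sum_le_tsum _) hesum)
    exact (ENNReal.ofReal_lt_ofReal_iff (by positivity)).1 h7
  · intro y hy
    obtain ⟨i, hi, hyi⟩ := mem_iUnion₂.1 (hJ hy)
    exact mem_iUnion₂.2 ⟨(x i, r i), Finset.mem_image.2 ⟨i, hJf.mem_toFinset.2 hi, rfl⟩, hyi⟩

theorem exists_disj {n : ℕ} {K : Set (E n)} {η : ℝ} (h : ∃ s : Finset (E n × ℝ), Fam K η s) :
    ∃ s : Finset (E n × ℝ), Fam K η s ∧ ∀ p ∈ s, ∀ q ∈ s, p ≠ q →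
      Disjoint (closedBall p.1 p.2) (closedBall q.1 q.2) := by
  classical
  have h' : ∃ m : ℕ, ∃ s : Finset (E n × ℝ), s.card = m ∧ Fam K η s := by
    obtain ⟨s, hs⟩ := h
    exact ⟨_, s, rfl, hs⟩
  obtain ⟨s, hcard, hs⟩ := Nat.find_spec h'
  refine ⟨s, hs, ?_⟩
  intro p hp q hq hpq
  by_contra hdis
  obtain ⟨z, hz1, hz2, hz3⟩ := merge (hs.1 p hp).1 (hs.1 q hq).1 hdis
  set s₁ := (s.erase p).erase q with hs₁
  have hq' : q ∈ s.erase p := Finset.mem_erase.2 ⟨hpq.symm, hq⟩
  have hc1 : s₁.card + 2 = s.card := by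
    have e1 : s₁.card + 1 = (s.erase p).card := Finset.card_erase_add_one hq'
    have e2 : (s.erase p).card + 1 = s.card := Finset.card_erase_add_one hp
    omega
  have hsum1 : ∑ x ∈ s₁, x.2 + (p.2 + q.2) = ∑ x ∈ s, x.2 := by
    have e1 : ∑ x ∈ s₁, x.2 + q.2 = ∑ x ∈ s.erase p, x.2 :=
      Finset.sum_erase_add (s.erase p) (fun x : E n × ℝ => x.2) hq'
    have e2 : ∑ x ∈ s.erase p, x.2 + p.2 = ∑ x ∈ s, x.2 :=
      Finset.sum_erase_add s (fun x : E n × ℝ => x.2) hp
    rw [← e2, ← e1]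
    ring
  have hpos : 0 < p.2 + q.2 := add_pos (hs.1 p hp).1 (hs.1 q hq).1
  have hsub : ∀ x ∈ s₁, x ∈ s := fun x hx => Finset.mem_of_mem_erase (Finset.mem_of_mem_erase hx)
  have hfam : Fam K η (insert (z, p.2 + q.2) s₁) := by
    refine ⟨?_, ?_, ?_⟩
    · intro x hx
      rcases Finset.mem_insert.1 hx with rfl | hx
      · refine ⟨hpos, ?_⟩
        obtain ⟨u, hu1, hu2⟩ := (hs.1 p hp).2
        exact ⟨u, hz1 hu1, hu2⟩
      · exact hs.1 x (hsub x hx)
    · refine lt_of_le_of_lt ?_ hs.2.1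
      by_cases hmem : (z, p.2 + q.2) ∈ s₁
      · rw [Finset.insert_eq_of_mem hmem]
        linarith
      · rw [Finset.sum_insert hmem]
        simp only
        linarith
    · intro y hy
      obtain ⟨x, hx, hyx⟩ := mem_iUnion₂.1 (hs.2.2 hy)
      by_cases h1 : x = p
      · subst h1
        exact mem_iUnion₂.2 ⟨_, Finset.mem_insert_self _ _, hz2 hyx⟩
      · by_cases h2 : x = q
        · subst h2
          exact mem_iUnion₂.2 ⟨_, Finset.mem_insert_self _ _, hz3 hyx⟩
        · exact mem_iUnion₂.2 ⟨x, Finset.mem_insert_of_mem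
            (Finset.mem_erase.2 ⟨h2, Finset.mem_erase.2 ⟨h1, hx⟩⟩), hyx⟩
  have hlt : (insert (z, p.2 + q.2) s₁).card < Nat.find h' := by
    have e3 := Finset.card_insert_le (z, p.2 + q.2) s₁
    omega
  exact Nat.find_min h' hlt ⟨_, rfl, hfam⟩

/-- Compact sets of one-dimensional Hausdorff measure zero are covered by small disjoint balls. -/
theorem main : S_BALLS := by
  classical
  intro n K U hK h0 hU hKU
  obtain ⟨δ, hδ, hδU⟩ := hK.exists_thickening_subset_open hU hKU
  obtain ⟨s, hs, hdis⟩ := exists_disj (exists_fam hK h0 (ε := δ / 8) (by positivity))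
  have hsmall : ∀ p ∈ s, closedBall p.1 p.2 ⊆ U := by
    intro p hp y hy
    apply hδU
    obtain ⟨u, hu1, hu2⟩ := (hs.1 p hp).2
    rw [mem_thickening_iff]
    refine ⟨u, hu2, ?_⟩
    have h1 : p.2 ≤ ∑ x ∈ s, x.2 :=
      Finset.single_le_sum (f := fun x : E n × ℝ => x.2) (fun x hx => (hs.1 x hx).1.le) hp
    have h2 := hs.2.1
    have h3 := dist_triangle_right y u p.1
    rw [mem_closedBall] at hy hu1
    linarith
  let g := s.equivFin
  refine ⟨s.card, fun k => (g.symm k).1.1, fun k => (g.symm k).1.2,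
    fun k => (hs.1 _ (g.symm k).2).1, fun k => hsmall _ (g.symm k).2, ?_, ?_⟩
  · intro k l hkl
    apply hdis _ (g.symm k).2 _ (g.symm l).2
    intro h
    exact hkl (g.symm.injective (Subtype.ext h))
  · intro y hy
    obtain ⟨x, hx, hyx⟩ := mem_iUnion₂.1 (hs.2.2 hy)
    refine mem_iUnion.2 ⟨g ⟨x, hx⟩, ?_⟩
    simpa using hyx

end Pool.Agent.N550.CQ.Balls
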