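import Pool.Agent.N550.CQ.Stm
import Pool.Agent.N550.KH.Cell
import Pool.Agent.N550.KH.Asm
import Pool.Agent.N550.KH.End
import Pool.Agent.N550.SH.Cross
import Pool.Agent.Y522.Tools

/-!
# Project CQ: the theorem for exceptional sets in a cell
-/

set_option autoImplicit false

open Set Filter Topology Metric Function MeasureTheory
open scoped Manifold ContDiff

noncomputable section

namespace Pool.Agent.N550.CQ.CellQ

open Pool.Agent.Y522 Pool.Agent.N550.KH Pool.Agent.N550.CQ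

section

variable {n : ℕ} {M N : Type} [TopologicalSpace M] [ChartedSpace (E n) M] [IsManifold (𝓡 n) ∞ M]
  [TopologicalSpace N] [ChartedSpace (E n) N] [IsManifold (𝓡 n) ∞ N]

/-- smoothness of a map on an open set, from its restriction -/
theorem smooth_of_restr (U : TopologicalSpace.Opens M) (V : TopologicalSpace.Opens N)
    (f : M → N) (f0 : U → V) (h0 : ∀ x : U, f x = f0 x) (x : U)
    (hf : ContMDiffAt (𝓡 n) (𝓡 n) ∞ f0 x) : ContMDiffAt (𝓡 n) (𝓡 n) ∞ f (x : M) := by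
  obtain ⟨p, hp1, hp2, hp3, hp4⟩ := (Pool.Agent.N550.SH.ld_opens (n := n) U x).exists_inverse
  have h1 : f =ᶠ[𝓝 (x : M)] fun z => (f0 (p z) : N) := by
    filter_upwards [hp4] with z hz
    rw [← h0, hz]
  refine ContMDiffAt.congr_of_eventuallyEq ?_ h1
  have h2 : ContMDiffAt (𝓡 n) (𝓡 n) ∞ f0 (p (x : M)) := by rw [hp2]; exact hf
  have h3 : ContMDiffAt (𝓡 n) (𝓡 n) ∞ (Subtype.val : V → N) (f0 (p (x : M))) :=
    (Pool.Agent.N550.SH.ld_opens (n := n) V _).contMDiffAt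
  exact h3.comp (x : M) (h2.comp (x : M) hp1.contMDiffAt)

/-- local diffeomorphisms, from the restriction -/
theorem ld_of_restr (U : TopologicalSpace.Opens M) (V : TopologicalSpace.Opens N)
    (f : M → N) (f0 : U → V) (h0 : ∀ x : U, f x = f0 x) (x : U)
    (hf : LD n f0 x) : LD n f (x : M) := by
  obtain ⟨p, hp1, hp2, hp3, hp4⟩ := (Pool.Agent.N550.SH.ld_opens (n := n) U x).exists_inverse
  have h1 : f =ᶠ[𝓝 (x : M)] fun z => (f0 (p z) : N) := by
    filter_upwards [hp4] with z hz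
    rw [← h0, hz]
  refine LD.congr ?_ h1
  have h2 : LD n f0 (p (x : M)) := by rw [hp2]; exact hf
  have h3 : LD n (Subtype.val : V → N) (f0 (p (x : M))) := Pool.Agent.N550.SH.ld_opens (n := n) V _
  exact LD.comp_fun h3 (LD.comp_fun h2 hp1)

/-- smoothness of the restriction -/
theorem restr_smooth (U : TopologicalSpace.Opens M) (V : TopologicalSpace.Opens N)
    (f : M → N) (f0 : U → V) (h0 : ∀ x : U, f x = f0 x) (x : U) (hc : ContinuousAt f0 x)
    (hf : ContMDiffAt (𝓡 n) (𝓡 n) ∞ f (x : M)) : ContMDiffAt (𝓡 n) (𝓡 n) ∞ f0 x := by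
  obtain ⟨p, hp1, hp2, hp3, hp4⟩ := (Pool.Agent.N550.SH.ld_opens (n := n) V (f0 x)).exists_inverse
  have h1 : f0 =ᶠ[𝓝 x] fun z => p (f (z : M)) := by
    filter_upwards [hc.eventually hp3] with z hz
    rw [h0, hz]
  refine ContMDiffAt.congr_of_eventuallyEq ?_ h1
  have h2 : ContMDiffAt (𝓡 n) (𝓡 n) ∞ (Subtype.val : U → M) x :=
    (Pool.Agent.N550.SH.ld_opens (n := n) U _).contMDiffAt
  have h3 : ContMDiffAt (𝓡 n) (𝓡 n) ∞ p (f (x : M)) := by
    rw [h0]
    exact hp1.contMDiffAt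
  exact h3.comp x (hf.comp x h2)

omit [IsManifold (𝓡 n) ∞ M] [IsManifold (𝓡 n) ∞ N] in
theorem rank_le {A V W B : E n →L[ℝ] E n} (h : A.comp V = W.comp B) (hV : Surjective V) :
    Module.finrank ℝ (LinearMap.range A.toLinearMap) ≤
      Module.finrank ℝ (LinearMap.range B.toLinearMap) := by
  have e1 : LinearMap.range A.toLinearMap =
      (LinearMap.range B.toLinearMap).map W.toLinearMap := by
    ext y
    constructor
    · rintro ⟨u, rfl⟩
      obtain ⟨v, rfl⟩ := hV u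
      exact ⟨B v, ⟨v, rfl⟩, (DFunLike.congr_fun h v).symm⟩
    · rintro ⟨_, ⟨v, rfl⟩, rfl⟩
      exact ⟨V v, DFunLike.congr_fun h v⟩
  rw [e1]
  exact Submodule.finrank_map_le _ _

/-- the rank of the restriction -/
theorem rk_restr (U : TopologicalSpace.Opens M) (V : TopologicalSpace.Opens N)
    (f : M → N) (f0 : U → V) (h0 : ∀ x : U, f x = f0 x) (x : U)
    (hf : ContMDiffAt (𝓡 n) (𝓡 n) ∞ f (x : M)) (hf0 : ContMDiffAt (𝓡 n) (𝓡 n) ∞ f0 x) :
    rk n f (x : M) ≤ rk n f0 x := by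
  have hv := Pool.Agent.N550.SH.ld_opens (n := n) U x
  have hw := Pool.Agent.N550.SH.ld_opens (n := n) V (f0 x)
  have hfd : MDifferentiableAt (𝓡 n) (𝓡 n) f (x : M) := hf.mdifferentiableAt (by simp)
  have hf0d : MDifferentiableAt (𝓡 n) (𝓡 n) f0 x := hf0.mdifferentiableAt (by simp)
  have h1 : mfderiv (𝓡 n) (𝓡 n) (f ∘ (Subtype.val : U → M)) x =
      (mfderiv (𝓡 n) (𝓡 n) f (x : M)).comp (mfderiv (𝓡 n) (𝓡 n) (Subtype.val : U → M) x) :=
    mfderiv_comp x hfd hv.mdifferentiableAt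
  have h2 : mfderiv (𝓡 n) (𝓡 n) ((Subtype.val : V → N) ∘ f0) x =
      (mfderiv (𝓡 n) (𝓡 n) (Subtype.val : V → N) (f0 x)).comp (mfderiv (𝓡 n) (𝓡 n) f0 x) :=
    mfderiv_comp x hw.mdifferentiableAt hf0d
  have h3 : f ∘ (Subtype.val : U → M) = (Subtype.val : V → N) ∘ f0 := funext h0
  have h40 : ∀ g g' : U → N, g = g' → (mfderiv (𝓡 n) (𝓡 n) g x : E n →L[ℝ] E n) =
      (mfderiv (𝓡 n) (𝓡 n) g' x : E n →L[ℝ] E n) := by
    rintro g _ rfl
    rfl
  have h4 : (mfderiv (𝓡 n) (𝓡 n) (f ∘ (Subtype.val : U → M)) x : E n →L[ℝ] E n) =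
      (mfderiv (𝓡 n) (𝓡 n) ((Subtype.val : V → N) ∘ f0) x : E n →L[ℝ] E n) := h40 _ _ h3
  have h5 : ((mfderiv (𝓡 n) (𝓡 n) f (x : M) : E n →L[ℝ] E n)).comp
      (mfderiv (𝓡 n) (𝓡 n) (Subtype.val : U → M) x : E n →L[ℝ] E n) =
      ((mfderiv (𝓡 n) (𝓡 n) (Subtype.val : V → N) (f0 x) : E n →L[ℝ] E n)).comp
        (mfderiv (𝓡 n) (𝓡 n) f0 x : E n →L[ℝ] E n) := h1.symm.trans (h4.trans h2)
  refine rank_le h5 ?_
  have h7 : ∀ V' : E n →L[ℝ] E n, Injective V' → Surjective V' := fun V' hV' =>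
    (LinearMap.injective_iff_surjective (f := V'.toLinearMap)).1 hV'
  exact h7 _ hv.mfderiv_injective

end

theorem main : S_COK → S_CELLQ := by
  classical
  intro hCOK m M N _ _ _ _ _ _ _ _ _ _ f Z c hNull hZ hBad hrk hci hcl hcZ
  -- the complement of the cell
  set X : Set N := (range c)ᶜ with hX
  have hcc : Continuous c := continuous_iff_continuousAt.2 fun z => (hcl z).continuousAt
  have hco : IsOpen (range c) := by
    rw [← image_univ]
    exact isOpen_image_of_LD isOpen_univ fun z _ => hcl z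
  have hXc : IsClosed X := hco.isClosed_compl
  have hXne : X.Nonempty := by
    by_contra hne
    rw [not_nonempty_iff_eq_empty, hX, compl_empty_iff] at hne
    have hcs : Surjective c := range_eq_univ.1 hne
    have hcom : IsOpenMap c := fun U hU => isOpen_image_of_LD hU fun z _ => hcl z
    let e : E (m + 1) ≃ₜ N :=
      (Equiv.ofBijective c ⟨hci, hcs⟩).toHomeomorphOfContinuousOpen hcc hcom
    have hce : CompactSpace (E (m + 1)) := e.symm.compactSpace
    exact (not_compactSpace_iff (X := E (m + 1))).2 inferInstance hce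
  -- the open submanifolds
  have hfZ : IsClosed (f '' Z) := (f.isClosed_image).2 hZ
  let M0 : TopologicalSpace.Opens M := ⟨Zᶜ, hZ.isOpen_compl⟩
  let N0 : TopologicalSpace.Opens N := ⟨(f '' Z)ᶜ, hfZ.isOpen_compl⟩
  have hM0 : ∀ x : M, x ∈ M0 ↔ x ∉ Z := fun x => Iff.rfl
  have hN0 : ∀ y : N, y ∈ N0 ↔ y ∉ f '' Z := fun y => Iff.rfl
  have hiff : ∀ x : M, x ∈ M0 ↔ f x ∈ N0 := by
    intro x
    rw [hM0, hN0, f.injective.mem_set_image]
  let f0 : M0 ≃ₜ N0 := f.subtype hiff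
  have h0 : ∀ x : M0, f x = f0 x := fun x => rfl
  have hsm : ∀ x : M, x ∉ Z → ContMDiffAt (𝓡 (m + 1)) (𝓡 (m + 1)) ∞ f x := by
    intro x hx
    have h1 : x ∉ Bad (m + 1) f := fun h => hx (hBad h)
    have h2 : ∀ᶠ y in 𝓝 x, ContMDiffAt (𝓡 (m + 1)) (𝓡 (m + 1)) ∞ f y := not_not.1 h1
    exact h2.self_of_nhds
  have hsm0 : ContMDiff (𝓡 (m + 1)) (𝓡 (m + 1)) ∞ f0 := fun x =>
    restr_smooth M0 N0 f f0 h0 x f0.continuous.continuousAt (hsm x x.2)
  have hrk0 : ∀ x : M0, m ≤ rk (m + 1) f0 x := fun x =>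
    (hrk x x.2).trans (rk_restr M0 N0 f f0 h0 x (hsm x x.2) (hsm0 x))
  -- the compact set
  have hX0 : IsCompact {x : M0 | f x ∈ X} := by
    rw [Subtype.isCompact_iff]
    have h1 : (Subtype.val '' {x : M0 | f x ∈ X} : Set M) = f ⁻¹' X := by
      ext x
      constructor
      · rintro ⟨y, hy, rfl⟩
        exact hy
      · intro hx
        have hxZ : x ∉ Z := fun h => hx (hcZ ⟨x, h, rfl⟩)
        exact ⟨⟨x, hxZ⟩, hx, rfl⟩
    rw [h1]
    exact (hXc.preimage f.continuous).isCompact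
  have hlc : LocallyCompactSpace M0 := ChartedSpace.locallyCompactSpace (E (m + 1)) M0
  obtain ⟨K, hK, hXK⟩ := exists_compact_superset hX0
  let O : Set (M0 × N0) := {p | p.1 ∈ interior K ∨ (p.2 : N) ∉ X}
  have hO : IsOpen O := by
    refine IsOpen.union (isOpen_interior.preimage continuous_fst) ?_
    exact hXc.isOpen_compl.preimage (continuous_subtype_val.comp continuous_snd)
  have hgr : ∀ x, (x, f0 x) ∈ O := by
    intro x
    by_cases hx : f x ∈ X
    · exact Or.inl (hXK hx)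
    · exact Or.inr hx
  obtain ⟨f', C, hC, hf'b, hf's, hf'K, hf'O, hf'C⟩ :=
    hCOK m M0 N0 f0 K O hsm0 hK (fun x _ => hrk0 x) hO hgr
  -- the new homeomorphism
  let fh : M → N := fun x => if h : x ∈ M0 then (f' ⟨x, h⟩ : N) else f x
  have hfh0 : ∀ x : M0, fh x = f' x := fun x => dif_pos x.2
  have hfhZ : ∀ x, x ∈ Z → fh x = f x := fun x hx => dif_neg (fun h => h hx)
  have hCc : IsClosed (Subtype.val '' C : Set M) :=
    (hC.image continuous_subtype_val).isClosed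
  have hfhC : ∀ x, x ∉ (Subtype.val '' C : Set M) → fh x = f x := by
    intro x hx
    by_cases hxZ : x ∈ Z
    · exact hfhZ x hxZ
    · have h1 : (⟨x, hxZ⟩ : M0) ∉ C := fun h => hx ⟨_, h, rfl⟩
      have h2 := hfh0 ⟨x, hxZ⟩
      rw [hf'C _ h1] at h2
      exact h2
  have hZC : ∀ x, x ∈ Z → fh =ᶠ[𝓝 x] f := by
    intro x hx
    have h1 : x ∉ (Subtype.val '' C : Set M) := by
      rintro ⟨y, -, rfl⟩
      exact y.2 hx
    filter_upwards [hCc.isOpen_compl.mem_nhds h1] with y hy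
    exact hfhC y hy
  have hsmh : ∀ x, x ∉ Z → ContMDiffAt (𝓡 (m + 1)) (𝓡 (m + 1)) ∞ fh x := fun x hx =>
    smooth_of_restr M0 N0 fh f' hfh0 ⟨x, hx⟩ (hf's _)
  have hcont : Continuous fh := by
    rw [continuous_iff_continuousAt]
    intro x
    by_cases hx : x ∈ Z
    · exact (f.continuous.continuousAt).congr (hZC x hx).symm
    · exact (hsmh x hx).continuousAt
  have hbij : Bijective fh := by
    constructor
    · intro x y hxy
      by_cases hx : x ∈ Z
      · by_cases hy : y ∈ Z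
        · rw [hfhZ x hx, hfhZ y hy] at hxy
          exact f.injective hxy
        · exfalso
          have h1 := hfh0 ⟨y, hy⟩
          have h2 : ((f' ⟨y, hy⟩ : N0) : N) ∉ f '' Z := (f' ⟨y, hy⟩).2
          apply h2
          rw [← h1]
          show fh y ∈ f '' Z
          rw [← hxy, hfhZ x hx]
          exact ⟨x, hx, rfl⟩
      · by_cases hy : y ∈ Z
        · exfalso
          have h1 := hfh0 ⟨x, hx⟩
          have h2 : ((f' ⟨x, hx⟩ : N0) : N) ∉ f '' Z := (f' ⟨x, hx⟩).2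
          apply h2
          rw [← h1]
          show fh x ∈ f '' Z
          rw [hxy, hfhZ y hy]
          exact ⟨y, hy, rfl⟩
        · have h1 := hfh0 ⟨x, hx⟩
          have h2 := hfh0 ⟨y, hy⟩
          have h3 : f' ⟨x, hx⟩ = f' ⟨y, hy⟩ := by
            apply Subtype.ext
            rw [← h1, ← h2]
            exact hxy
          exact congrArg Subtype.val (hf'b.1 h3)
    · intro y
      by_cases hy : y ∈ f '' Z
      · obtain ⟨x, hx, rfl⟩ := hy
        exact ⟨x, hfhZ x hx⟩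
      · obtain ⟨x, hx⟩ := hf'b.2 ⟨y, hy⟩
        refine ⟨x, ?_⟩
        rw [hfh0, hx]
  let F : M ≃ₜ N := Continuous.homeoOfEquivCompactToT2 (f := Equiv.ofBijective fh hbij) hcont
  have hF : ∀ x, F x = fh x := fun _ => rfl
  have hFf : (F : M → N) = fh := rfl
  -- the bad set
  have hBZ : ∀ x ∈ Bad (m + 1) F, x ∈ Z ∧ x ∈ Bad (m + 1) f := by
    intro x hx
    have hxZ : x ∈ Z := by
      by_contra hxZ
      apply hx
      filter_upwards [hZ.isOpen_compl.mem_nhds hxZ] with y hy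
      exact hsmh y hy
    refine ⟨hxZ, ?_⟩
    intro hsmx
    apply hx
    obtain ⟨s, hs, hso, hxs⟩ := mem_nhds_iff.1 (hZC x hxZ)
    filter_upwards [hsmx, hso.mem_nhds hxs] with y hy hys
    refine hy.congr_of_eventuallyEq ?_
    filter_upwards [hso.mem_nhds hys] with w hw
    exact hs hw
  have hNullF : NullH (m + 1) (F '' Bad (m + 1) F) := by
    intro h hi hl
    refine measure_mono_null ?_ (hNull h hi hl)
    refine preimage_mono ?_
    rintro _ ⟨x, hx, rfl⟩
    obtain ⟨h1, h2⟩ := hBZ x hx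
    refine ⟨x, h2, ?_⟩
    rw [hF, hfhZ x h1]
  obtain ⟨c', hc'i, hc'l, hc'r⟩ := Cell.main (m + 1) M N F c hNullF hci hcl
  -- local diffeomorphism over `X`
  have hLD : ∀ x, F x ∈ X → LD (m + 1) F x := by
    intro x hx
    have hxZ : x ∉ Z := by
      intro h
      apply hx
      rw [hF, hfhZ x h]
      exact hcZ ⟨x, h, rfl⟩
    have h1 := hf'O ⟨x, hxZ⟩
    have h2 : ((f' ⟨x, hxZ⟩ : N0) : N) ∈ X := by
      rw [← hfh0]
      exact hx
    rcases h1 with h1 | h1
    · exact ld_of_restr M0 N0 fh f' hfh0 ⟨x, hxZ⟩ (hf'K _ (interior_subset h1))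
    · exact absurd h2 h1
  have hasm : S_ASM := Asm.main End.main
  refine hasm (m + 1) M N (F ⁻¹' X) X c' c F (Nat.succ_pos m) ?_ hc'i hc'l ?_ hci hcl ?_
    (fun x hx => hLD x hx) F.injective.injOn (image_preimage_eq X F.surjective)
  · obtain ⟨y, hy⟩ := hXne
    obtain ⟨x, rfl⟩ := F.surjective y
    exact ⟨x, hy⟩
  · rw [hc'r, hX, preimage_compl, compl_compl]
  · rw [hX, compl_compl]

end Pool.Agent.N550.CQ.CellQ
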