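import Pool.Agent.N550.CQ.Stm
import Pool.Agent.R765.CO

/-!
# Smoothing of smooth homeomorphisms of corank at most one on a compact set (helper581)

A localisation of `Pool.Agent.R765.corankOne`.
-/

set_option autoImplicit false

open Set Filter Topology Metric Function
open scoped Manifold ContDiff

noncomputable section

namespace Pool.Agent.N550.CQ.Cok

open Pool.Agent.Y522 Pool.Agent.Y522.NA Pool.Agent.Y170.NA Pool.Agent.Y761.CI Pool.Agent.R765

variable {m : ℕ} {X Y : Type} [TopologicalSpace X] [T2Space X] [ChartedSpace (E (m + 1)) X]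
  [IsManifold (𝓡 (m + 1)) ∞ X] [TopologicalSpace Y] [ChartedSpace (E (m + 1)) Y]
  [IsManifold (𝓡 (m + 1)) ∞ Y]

/-- **Smoothing of smooth homeomorphisms of corank at most one, on a compact set.** -/
theorem corankOneOn (f : X ≃ₜ Y) (hf : ContMDiff (𝓡 (m + 1)) (𝓡 (m + 1)) ∞ f) (K : Set X)
    (hB : IsCompact K)
    (hrk : ∀ x ∈ K, m ≤ Module.finrank ℝ
      (LinearMap.range (mfderiv (𝓡 (m + 1)) (𝓡 (m + 1)) f x).toLinearMap))
    (O : Set (X × Y)) (hO : IsOpen O) (hfO : ∀ x, (x, f x) ∈ O) :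
    ∃ (f' : X → Y) (C : Set X), IsCompact C ∧ Bijective f' ∧
      ContMDiff (𝓡 (m + 1)) (𝓡 (m + 1)) ∞ f' ∧ (∀ x ∈ K, LD (m + 1) f' x) ∧
      (∀ x, (x, f' x) ∈ O) ∧ ∀ x, x ∉ C → f' x = f x := by
  classical
  let τ : Y → ℝ := fun _ => 0
  have hex : ∀ x : {x : X // x ∈ K}, ∃ D : DatL m (f : X → Y) τ, (D.A 0 : X) = x :=
    fun x => exists_datC (f : X → Y) hf f.injective x (hrk x x.2)
  choose D hD using hex
  -- the finite cover
  have haLD : ∀ x, ∀ z ∈ box m 1 1, LD (m + 1) (fun w => ((D x).A w : X)) z := fun x z hz =>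
    LD.comp_fun (LD_val _ _) ((D x).nb.ld z hz)
  have hopen : ∀ x, IsOpen ((fun w => ((D x).A w : X)) ''
      {z : E (m + 1) | ‖tl z‖ < 1 / 4 ∧ |z 0| < 1 / 4}) := by
    intro x
    apply isOpen_image_of_LD (n := m + 1) (Pool.Agent.Y870.SH.open_small_box (1 / 4))
    intro z hz
    apply haLD x
    exact ⟨by have := hz.1; linarith, by have := hz.2; linarith⟩
  obtain ⟨t, ht⟩ := hB.elim_finite_subcover
    (fun x : {x : X // x ∈ K} => (fun w => ((D x).A w : X)) ''
      {z : E (m + 1) | ‖tl z‖ < 1 / 4 ∧ |z 0| < 1 / 4})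
    hopen
    (by
      intro x hx
      rw [mem_iUnion]
      refine ⟨⟨x, hx⟩, 0, ⟨?_, ?_⟩, hD ⟨x, hx⟩⟩
      · rw [map_zero, norm_zero]; norm_num
      · change |(0:ℝ)| < 1 / 4
        rw [abs_zero]; norm_num)
  set N := t.card with hNdef
  let D' : Fin N → DatL m (f : X → Y) τ := fun i => D (t.equivFin.symm i : {x : X // x ∈ K})
  have hcov : ∀ x : X, x ∈ K →
      ∃ i : Fin N, ∃ z ∈ box m (1 / 4) (1 / 4), ((D' i).A z : X) = x := by
    intro x hx
    have h1 := ht hx
    simp only [mem_iUnion] at h1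
    obtain ⟨y, hy, z, hz, hzx⟩ := h1
    refine ⟨t.equivFin ⟨y, hy⟩, z, ⟨hz.1.le, hz.2.le⟩, ?_⟩
    show ((D (t.equivFin.symm (t.equivFin ⟨y, hy⟩) : {x : X // x ∈ K})).A z : X) = x
    rw [Equiv.symm_apply_apply]
    exact hzx
  -- the neighbourhood of the graph
  let W : Fin N → Set (X × Y) := fun j =>
    {p | p.1 ∉ closure ((D' j).U : Set X)} ∪
    (((f ⁻¹' (D' j).e.source) ×ˢ (D' j).e.source) ∩
      (fun p : X × Y => ‖(D' j).e p.2 - (D' j).e (f p.1)‖) ⁻¹' (Iio (D' j).η))
  have hW : ∀ j, IsOpen (W j) := by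
    intro j
    refine IsOpen.union ?_ ?_
    · exact isClosed_closure.isOpen_compl.preimage continuous_fst
    · set e := (D' j).e with he
      have h1 : IsOpen ((f ⁻¹' e.source) ×ˢ e.source) :=
        (e.open_source.preimage hf.continuous).prod e.open_source
      refine ContinuousOn.isOpen_inter_preimage ?_ h1 isOpen_Iio
      have c1 : ContinuousOn (fun p : X × Y => e p.2) ((f ⁻¹' e.source) ×ˢ e.source) :=
        e.continuousOn.comp continuous_snd.continuousOn fun p hp => hp.2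
      have c2 : ContinuousOn (fun p : X × Y => e (f p.1)) ((f ⁻¹' e.source) ×ˢ e.source) :=
        e.continuousOn.comp (hf.continuous.comp continuous_fst).continuousOn fun p hp => hp.1
      exact (c1.sub c2).norm
  let O' : Set (X × Y) := O ∩ ⋂ j, W j
  have hO' : IsOpen O' := hO.inter (isOpen_iInter_of_finite hW)
  have hfO' : ∀ x, (x, f x) ∈ O' := by
    intro x
    refine ⟨hfO x, mem_iInter.2 fun j => ?_⟩
    by_cases hx : x ∈ closure ((D' j).U : Set X)
    · refine Or.inr ⟨⟨(D' j).clo x hx, (D' j).clo x hx⟩, ?_⟩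
      show ‖(D' j).e (f x) - (D' j).e (f x)‖ < _
      rw [sub_self, norm_zero]
      exact (D' j).pos
    · exact Or.inl hx
  have hOD : ∀ p ∈ O', ∀ j, p.1 ∈ closure ((D' j).U : Set X) →
      p.2 ∈ (D' j).e.source ∧ ‖(D' j).e p.2 - (D' j).e (f p.1)‖ < (D' j).η := by
    intro p hp j hpj
    rcases mem_iInter.1 hp.2 j with h | h
    · exact absurd hpj h
    · exact ⟨h.1.2, h.2⟩
  have hind : ∀ k : ℕ, k ≤ N → ∃ G : X → Y, InvL m (f : X → Y) τ D' O' k G := by
    intro k
    induction k with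
    | zero =>
      intro _
      refine ⟨f, hf, f.bijective, hfO', ?_, fun i hi => absurd hi (Nat.not_lt_zero _),
        fun x hx => hx, fun x => rfl, fun x _ => rfl⟩
      intro j z hz
      have := Pool.Agent.Y870.SH.NBox_fderiv (D' j).nb hz
      have h2 : fderiv ℝ (fun w => tl ((D' j).L ((D' j).e (f ((D' j).A w : X))))) z = tl := this
      rw [h2, sub_self, norm_zero]
      exact (D' j).pos
    | succ k ih =>
      intro hk
      obtain ⟨G, hG⟩ := ih (by omega)
      exact step_oneL (f : X → Y) τ D' O' hO' hOD k (by omega) G hG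
  obtain ⟨G, hG⟩ := hind N le_rfl
  refine ⟨G, ⋃ j : Fin N, (fun w => ((D' j).A w : X)) '' box m 1 1, ?_, hG.bij, hG.sm, fun x hx => ?_,
    fun x => (hG.gr x).1, fun x hx => hG.off x fun j hj => hx (mem_iUnion.2 ⟨j, hj⟩)⟩
  · refine isCompact_iUnion fun j => ?_
    exact (isCompact_box 1 1).image_of_continuousOn fun z hz =>
      (haLD _ z hz).continuousAt.continuousWithinAt
  · obtain ⟨i, z, hz, rfl⟩ := hcov x hx
    exact hG.good i i.2 z hz

theorem main : S_COK := by
  intro m X Y _ _ _ _ _ _ _ f K O hf hK hrk hO hfO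
  exact corankOneOn f hf K hK hrk O hO hfO

end Pool.Agent.N550.CQ.Cok
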