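import Pool.Agent.N550.CQ.Stm
import Pool.Agent.N550.KH.Shift
import Pool.Agent.N550.KH.Supp

/-!
# Project CQ: closed null sets in closed connected manifolds lie in an open cell

The finitely many disjoint open cells which cover the null set are compressed to small balls about
their centers by diffeomorphisms with compact support in the cells, and the centers are moved into
one given cell.
-/

set_option autoImplicit false

open Set Filter Topology Metric Function MeasureTheory
open scoped Manifold ContDiff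

noncomputable section

namespace Pool.Agent.N550.CQ.Eng

open Pool.Agent.Y522 Pool.Agent.N550.KH

/-- the standard diffeomorphism onto a ball -/
theorem ld_univBall {n : ℕ} {c : E n} {r : ℝ} (hr : 0 < r) (x : E n) :
    LD n (OpenPartialHomeomorph.univBall c r) x := by
  refine ⟨{ toPartialEquiv := (OpenPartialHomeomorph.univBall c r).toPartialEquiv
            open_source := (OpenPartialHomeomorph.univBall c r).open_source
            open_target := (OpenPartialHomeomorph.univBall c r).open_target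
            contMDiffOn_toFun := ?_
            contMDiffOn_invFun := ?_ }, ?_, ?_⟩
  · exact (contMDiff_iff_contDiff.2 OpenPartialHomeomorph.contDiff_univBall).contMDiffOn
  · have h1 : ContDiffOn ℝ ∞ (OpenPartialHomeomorph.univBall c r).symm
        (OpenPartialHomeomorph.univBall c r).target := by
      rw [OpenPartialHomeomorph.univBall_target c hr]
      exact OpenPartialHomeomorph.contDiffOn_univBall_symm
    exact contMDiffOn_iff_contDiffOn.2 h1
  · change x ∈ (OpenPartialHomeomorph.univBall c r).source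
    rw [OpenPartialHomeomorph.univBall_source]
    exact mem_univ _
  · intro y _
    rfl

/-- the chart as a partial diffeomorphism -/
def chPD {n : ℕ} {X : Type} [TopologicalSpace X] [ChartedSpace (E n) X] [IsManifold (𝓡 n) ∞ X]
    (x : X) : PartialDiffeomorph (𝓡 n) (𝓡 n) X (E n) ∞ where
  toPartialEquiv := (chartAt (E n) x).toPartialEquiv
  open_source := (chartAt (E n) x).open_source
  open_target := (chartAt (E n) x).open_target
  contMDiffOn_toFun := contMDiffOn_chart
  contMDiffOn_invFun := contMDiffOn_chart_symm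

theorem ld_chart_symm {n : ℕ} {X : Type} [TopologicalSpace X] [ChartedSpace (E n) X]
    [IsManifold (𝓡 n) ∞ X] (x₀ : X) (z : E n) (hz : z ∈ (chartAt (E n) x₀).target) :
    LD n (chartAt (E n) x₀).symm z :=
  ⟨(chPD x₀).symm, hz, fun _ _ => rfl⟩

/-- an open cell -/
theorem exists_cell {n : ℕ} {X : Type} [TopologicalSpace X] [ChartedSpace (E n) X]
    [IsManifold (𝓡 n) ∞ X] (x₀ : X) : ∃ c : E n → X, Injective c ∧ ∀ z, LD n c z := by
  set e := chartAt (E n) x₀ with he
  have h1 : e x₀ ∈ e.target := e.map_source (mem_chart_source _ x₀)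
  obtain ⟨r, hr, hball⟩ := Metric.isOpen_iff.1 e.open_target _ h1
  set B := OpenPartialHomeomorph.univBall (e x₀) r with hB
  have hsrc : B.source = univ := OpenPartialHomeomorph.univBall_source _ _
  have htgt : B.target = ball (e x₀) r := OpenPartialHomeomorph.univBall_target _ hr
  have hmem : ∀ z, B z ∈ e.target := by
    intro z
    apply hball
    rw [← htgt]
    exact B.map_source (by rw [hsrc]; exact mem_univ _)
  refine ⟨fun z => e.symm (B z), ?_, ?_⟩
  · intro x y hxy
    have h2 : B x = B y := e.symm.injOn (hmem x) (hmem y) hxy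
    exact B.injOn (by rw [hsrc]; exact mem_univ _) (by rw [hsrc]; exact mem_univ _) h2
  · intro z
    exact LD.comp_fun (g := e.symm) (f := B) (ld_chart_symm x₀ _ (hmem z)) (ld_univBall hr z)

section

variable {n : ℕ} {M N P : Type} [TopologicalSpace M] [ChartedSpace (E n) M]
    [TopologicalSpace N] [ChartedSpace (E n) N] [TopologicalSpace P] [ChartedSpace (E n) P]

theorem isDf_comp {g : N → P} {f : M → N} (hg : IsDf n g) (hf : IsDf n f) :
    IsDf n (fun x => g (f x)) :=
  ⟨hg.1.comp hf.1, fun x => LD.comp_fun (hg.2 _) (hf.2 x)⟩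

theorem isDf_inv {κ : M → N} (h : IsDf n κ) :
    ∃ κ' : N → M, IsDf n κ' ∧ (∀ x, κ' (κ x) = x) ∧ ∀ y, κ (κ' y) = y := by
  obtain ⟨g, hg1, hg2⟩ := Function.bijective_iff_has_inverse.1 h.1
  exact ⟨g, ⟨⟨hg2.injective, hg1.surjective⟩, fun y => LD.inverse_bij h.1 h.2 hg1 y⟩, hg1, hg2⟩

end

/-- the part of a compact set in a cell is compressed to a small ball about the center -/
theorem compress {n : ℕ} {N : Type} [TopologicalSpace N] [T2Space N] [ChartedSpace (E n) N]
    {h : E n → N} (hi : Injective h) (hl : ∀ z, LD n h z) {C : Set N}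
    (hC : IsCompact C) (hCr : C ⊆ range h) {ε : ℝ} (hε : 0 < ε) :
    ∃ K : N → N, IsDf n K ∧ (∀ x ∈ C, K x ∈ h '' ball 0 ε) ∧ ∀ x, x ∉ range h → K x = x := by
  have hg : ∀ z, invFun h (h z) = z := leftInverse_invFun hi
  have hcont : ContinuousOn (invFun h) C := by
    intro x hx
    obtain ⟨z, rfl⟩ := hCr hx
    have h1 : LD n (invFun h) (h z) :=
      LD.inverse isOpen_univ (fun x _ => hl x) (fun x _ => hg x) (mem_univ z)
    exact h1.continuousAt.continuousWithinAt
  obtain ⟨R, hR⟩ := (hC.image_of_continuousOn hcont).isBounded.subset_closedBall (0 : E n)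
  obtain ⟨κ, hκ, ⟨R', hR'⟩, hκR⟩ := Pool.Agent.N550.KH.Shift.main.2.2 n 0 ε R hε
  obtain ⟨κ', hκ', h1, h2⟩ := isDf_inv hκ
  obtain ⟨K, hK, hKh, hKo⟩ := Pool.Agent.N550.KH.Supp.main n N h hi hl κ' hκ'
    ⟨R', fun z hz => by
      have := h1 z
      rwa [hR' z hz] at this⟩
  refine ⟨K, hK, ?_, hKo⟩
  intro x hx
  obtain ⟨z, rfl⟩ := hCr hx
  rw [hKh]
  have h3 : z ∈ closedBall (0 : E n) R := by
    have := hR (mem_image_of_mem (invFun h) hx)
    rwa [hg] at this
  obtain ⟨w, hw, hwz⟩ := hκR h3
  rw [← hwz, h1]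
  exact mem_image_of_mem h hw

theorem main : S_PCS → S_HMG → S_ENG := by
  intro hPCS hHMG n N _ _ _ _ _ _ B hn hBc hBn
  obtain ⟨s, h, hi, hl, hd, hcov⟩ := hPCS n N B (by omega) hBc hBn
  obtain ⟨x₀⟩ : Nonempty N := inferInstance
  obtain ⟨c₀, hc₀, hc₀l⟩ := exists_cell (n := n) x₀
  have hopen : ∀ {g : E n → N}, (∀ z, LD n g z) → IsOpen (range g) := by
    intro g hg
    rw [← image_univ]
    exact isOpen_image_of_LD isOpen_univ fun x _ => hg x
  obtain ⟨D₀, hD₀, hD₀U⟩ := hHMG n s N (fun k => h k 0) (range c₀) hn (hopen hc₀l) ⟨_, 0, rfl⟩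
  -- radii
  have hε : ∀ k, ∃ ε : ℝ, 0 < ε ∧ ∀ z ∈ ball (0 : E n) ε, D₀ (h k z) ∈ range c₀ := by
    intro k
    have h1 : ContinuousAt (fun z => D₀ (h k z)) 0 :=
      (LD.comp_fun (hD₀.2 _) (hl k 0)).continuousAt
    have h2 := h1.preimage_mem_nhds ((hopen hc₀l).mem_nhds (hD₀U k))
    obtain ⟨ε, hε, hε'⟩ := Metric.mem_nhds_iff.1 h2
    exact ⟨ε, hε, fun z hz => hε' hz⟩
  choose ε hε hεU using hε
  -- the pieces of B
  have hBk : ∀ k, IsCompact (B ∩ range (h k)) := by
    intro k
    have h1 : B ∩ range (h k) = B \ ⋃ l, ⋃ _ : l ≠ k, range (h l) := by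
      ext x
      constructor
      · rintro ⟨hx, hxk⟩
        refine ⟨hx, ?_⟩
        intro hcon
        obtain ⟨l, hl', hxl⟩ := mem_iUnion₂.1 hcon
        exact (Set.disjoint_left.1 (hd l k hl')) hxl hxk
      · rintro ⟨hx, hxn⟩
        refine ⟨hx, ?_⟩
        obtain ⟨l, hxl⟩ := mem_iUnion.1 (hcov hx)
        by_cases hlk : l = k
        · rw [← hlk]
          exact hxl
        · exact absurd (mem_iUnion₂.2 ⟨l, hlk, hxl⟩) hxn
    rw [h1]
    refine IsClosed.isCompact ?_
    refine hBc.sdiff (isOpen_iUnion fun l => isOpen_iUnion fun _ => hopen (hl l))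
  have hK : ∀ k, ∃ K : N → N, IsDf n K ∧ (∀ x ∈ B ∩ range (h k), K x ∈ h k '' ball 0 (ε k)) ∧
      ∀ x, x ∉ range (h k) → K x = x := fun k =>
    compress (hi k) (hl k) (hBk k) inter_subset_right (hε k)
  choose K hKd hKB hKo using hK
  -- composition
  have hcomp : ∀ t : Finset (Fin s), ∃ D : N → N, IsDf n D ∧
      (∀ k ∈ t, ∀ x ∈ B ∩ range (h k), D x ∈ h k '' ball 0 (ε k)) ∧
      ∀ k, k ∉ t → ∀ x ∈ range (h k), D x = x := by
    intro t
    induction t using Finset.induction_on with
    | empty =>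
      refine ⟨fun x => x, ⟨bijective_id, fun x => LD.id x⟩, ?_, fun _ _ _ _ => rfl⟩
      intro k hk
      simp at hk
    | insert a t hat ih =>
      obtain ⟨D, hD, hD1, hD2⟩ := ih
      refine ⟨fun x => D (K a x), isDf_comp hD (hKd a), ?_, ?_⟩
      · intro k hk x hx
        by_cases hka : k = a
        · subst hka
          have h1 := hKB k x hx
          have h2 : K k x ∈ range (h k) := by
            obtain ⟨z, _, hz⟩ := h1
            exact ⟨z, hz⟩
          have h3 := hD2 k hat (K k x) h2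
          show D (K k x) ∈ _
          rw [h3]
          exact h1
        · have hkt : k ∈ t := (Finset.mem_insert.1 hk).resolve_left hka
          have h1 : x ∉ range (h a) := fun hxa => (Set.disjoint_left.1 (hd k a hka)) hx.2 hxa
          show D (K a x) ∈ _
          rw [hKo a x h1]
          exact hD1 k hkt x hx
      · intro k hk x hx
        rw [Finset.mem_insert, not_or] at hk
        have h1 : x ∉ range (h a) := fun hxa => (Set.disjoint_left.1 (hd k a hk.1)) hx hxa
        show D (K a x) = x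
        rw [hKo a x h1]
        exact hD2 k hk.2 x hx
  obtain ⟨D₁, hD₁, hD₁B, -⟩ := hcomp Finset.univ
  obtain ⟨G, hG, hG1, -⟩ := isDf_inv (isDf_comp hD₀ hD₁)
  refine ⟨fun z => G (c₀ z), hG.1.1.comp hc₀, fun z => LD.comp_fun (hG.2 _) (hc₀l z), ?_⟩
  intro x hx
  obtain ⟨k, hxk⟩ := mem_iUnion.1 (hcov hx)
  obtain ⟨z, hz, hzx⟩ := hD₁B k (Finset.mem_univ k) x ⟨hx, hxk⟩
  obtain ⟨w, hw⟩ := hεU k z hz
  refine ⟨w, ?_⟩
  show G (c₀ w) = x
  rw [hw, hzx]
  exact hG1 x

end Pool.Agent.N550.CQ.Eng
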