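import Pool.Agent.N550.CQ.Stm
import Pool.Agent.N550.KH.Shift
import Pool.Agent.N550.KH.Supp
import Pool.Agent.N550.KH.Null

/-!
# Project CQ: finitely many points of a connected manifold are moved into a given open set
-/

set_option autoImplicit false

open Set Filter Topology Metric Function MeasureTheory
open scoped Manifold ContDiff

noncomputable section

namespace Pool.Agent.N550.CQ.Hmg

open Pool.Agent.Y522 Pool.Agent.N550.KH Pool.Agent.N550.CQ

/-- the ball is diffeomorphic to the whole space -/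
theorem exists_ball {n : ℕ} (s : E n) {t : ℝ} (ht : 0 < t) :
    ∃ b : E n → E n, Injective b ∧ (∀ x, LD n b x) ∧ range b = ball s t ∧ b 0 = s := by
  have hs := OpenPartialHomeomorph.univBall_source s t
  have htg := OpenPartialHomeomorph.univBall_target s ht
  refine ⟨OpenPartialHomeomorph.univBall s t, ?_, ?_, ?_, ?_⟩
  · intro a b hab
    exact (OpenPartialHomeomorph.univBall s t).injOn (by rw [hs]; trivial) (by rw [hs]; trivial) hab
  · intro x
    refine ⟨{ toPartialEquiv := (OpenPartialHomeomorph.univBall s t).toPartialEquiv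
              open_source := (OpenPartialHomeomorph.univBall s t).open_source
              open_target := (OpenPartialHomeomorph.univBall s t).open_target
              contMDiffOn_toFun := ?_
              contMDiffOn_invFun := ?_ }, ?_, fun _ _ => rfl⟩
    · exact (contMDiff_iff_contDiff.2 OpenPartialHomeomorph.contDiff_univBall).contMDiffOn
    · refine contMDiffOn_iff_contDiffOn.2 ?_
      have h := OpenPartialHomeomorph.contDiffOn_univBall_symm (n := ⊤) (c := s) (r := t)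
      rw [← htg] at h
      exact h
    · change x ∈ (OpenPartialHomeomorph.univBall s t).source
      rw [hs]; trivial
  · have h := (OpenPartialHomeomorph.univBall s t).image_source_eq_target
    rw [hs, htg, image_univ] at h
    exact h
  · exact OpenPartialHomeomorph.univBall_apply_zero s t

/-- small moves of the origin -/
theorem mv (n : ℕ) : ∃ δ : ℝ, 0 < δ ∧ ∀ w : E n, ‖w‖ < δ → ∃ κ : E n → E n, IsDf n κ ∧
    (∃ R : ℝ, ∀ z, R ≤ ‖z‖ → κ z = z) ∧ κ 0 = w := by
  let f : ContDiffBump (0 : E n) := ⟨1, 2, one_pos, one_lt_two⟩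
  have hf : ContDiff ℝ ∞ f := f.contDiff
  have hc : HasCompactSupport (fderiv ℝ f) := f.hasCompactSupport.fderiv (𝕜 := ℝ)
  obtain ⟨C, hC⟩ := hc.exists_bound_of_continuous (hf.continuous_fderiv (by simp))
  have hC0 : 0 ≤ C := (norm_nonneg _).trans (hC 0)
  refine ⟨1 / (2 * (C + 1)), by positivity, ?_⟩
  intro w hw
  refine ⟨fun z => z + f z • w, ?_, ⟨2, ?_⟩, ?_⟩
  · refine Shift.main.1 n f w (1 / 2) hf (by norm_num) ?_
    intro z
    have h1 : ‖fderiv ℝ f z‖ * ‖w‖ ≤ C * (1 / (2 * (C + 1))) :=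
      mul_le_mul (hC z) hw.le (norm_nonneg _) hC0
    refine h1.trans ?_
    rw [mul_one_div, div_le_div_iff₀ (by positivity) (by norm_num)]
    linarith
  · intro z hz
    have h1 : f z = 0 := by
      apply f.zero_of_le_dist
      rw [dist_zero_right]
      exact hz
    simp only [h1, zero_smul, add_zero]
  · have h1 : f 0 = 1 := by
      apply f.one_of_mem_closedBall
      exact mem_closedBall_self (by norm_num)
    simp only [h1, one_smul, zero_add]

theorem rank_lt {n : ℕ} (hn : 1 < n) : 1 < Module.rank ℝ (E n) := by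
  rw [← Module.finrank_eq_rank, finrank_euclideanSpace_fin]
  exact_mod_cast hn

section

variable {n : ℕ} {N : Type} [TopologicalSpace N] [ChartedSpace (E n) N]

theorem isDf_id : IsDf n (fun x : N => x) := ⟨bijective_id, fun x => LD.id x⟩

theorem isDf_comp {f g : N → N} (hf : IsDf n f) (hg : IsDf n g) : IsDf n (fun x => f (g x)) :=
  ⟨hf.1.comp hg.1, fun x => LD.comp_fun (hf.2 _) (hg.2 x)⟩

theorem isDf_inv {f : N → N} (hf : IsDf n f) : ∃ g : N → N, IsDf n g ∧ ∀ x, g (f x) = x := by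
  refine ⟨(Equiv.ofBijective f hf.1).symm, ⟨(Equiv.ofBijective f hf.1).symm.bijective, ?_⟩, ?_⟩
  · intro y
    exact LD.inverse_bij hf.1 hf.2 (fun x => (Equiv.ofBijective f hf.1).symm_apply_apply x) y
  · intro x
    exact (Equiv.ofBijective f hf.1).symm_apply_apply x

/-- cells about the points -/
theorem cell [IsManifold (𝓡 n) ∞ N] (x : N) (V : Set N) (hV : IsOpen V) (hx : x ∈ V) :
    ∃ h : E n → N, Injective h ∧ (∀ z, LD n h z) ∧ h 0 = x ∧ range h ⊆ V := by
  set e := chartAt (E n) x with he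
  have hT : IsOpen (e.target ∩ e.symm ⁻¹' V) := e.isOpen_inter_preimage_symm hV
  have hxs : x ∈ e.source := mem_chart_source (E n) x
  have hc : e x ∈ e.target ∩ e.symm ⁻¹' V := by
    refine ⟨e.map_source hxs, ?_⟩
    change e.symm (e x) ∈ V
    rw [e.left_inv hxs]
    exact hx
  obtain ⟨r, hr, hrT⟩ := Metric.isOpen_iff.1 hT _ hc
  obtain ⟨b, hb1, hb2, hb3, hb4⟩ := exists_ball (e x) hr
  have hbT : ∀ z, b z ∈ e.target ∩ e.symm ⁻¹' V := by
    intro z
    apply hrT
    rw [← hb3]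
    exact mem_range_self z
  refine ⟨fun z => e.symm (b z), ?_, ?_, ?_, ?_⟩
  · intro z w hzw
    apply hb1
    exact e.symm.injOn (hbT z).1 (hbT w).1 hzw
  · intro z
    exact (Null.ld_chart_symm x (b z) (hbT z).1).comp_fun (hb2 z)
  · simp only [hb4]
    exact e.left_inv hxs
  · rintro _ ⟨z, rfl⟩
    exact (hbT z).2

/-- all points near `x` can be reached -/
theorem reach [T2Space N] [IsManifold (𝓡 n) ∞ N] (x : N) (V : Set N) (hV : IsOpen V)
    (hx : x ∈ V) : ∃ O ∈ 𝓝 x, O ⊆ V ∧ ∀ y ∈ O, ∃ D : N → N, IsDf n D ∧ D x = y ∧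
      ∀ p, p ∉ V → D p = p := by
  obtain ⟨h, h1, h2, h3, h4⟩ := cell (n := n) x V hV hx
  obtain ⟨δ, hδ, hmv⟩ := mv n
  refine ⟨h '' ball 0 δ, ?_, ?_, ?_⟩
  · rw [← h3]
    exact (h2 0).image_mem_nhds (ball_mem_nhds 0 hδ)
  · exact (image_subset_range _ _).trans h4
  · rintro _ ⟨w, hw, rfl⟩
    obtain ⟨κ, hκ1, hκ2, hκ3⟩ := hmv w (by simpa using hw)
    obtain ⟨D, hD1, hD2, hD3⟩ := Supp.main n N h h1 h2 κ hκ1 hκ2
    refine ⟨D, hD1, ?_, ?_⟩
    · rw [← h3, hD2, hκ3]
    · intro p hp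
      exact hD3 p (fun hp' => hp (h4 hp'))

omit [TopologicalSpace N] [ChartedSpace (E n) N] in
theorem compl_fin (hn : 1 < n) {h : E n → N} (hi : Injective h) {F : Set N} (hF : F.Finite) :
    IsConnected (h ⁻¹' F)ᶜ :=
  (hF.preimage hi.injOn).countable.isConnected_compl_of_one_lt_rank (rank_lt hn)

/-- nonempty open sets are not contained in finite sets -/
theorem exists_off [IsManifold (𝓡 n) ∞ N] (hn : 1 < n) {F : Set N} (hF : F.Finite)
    {U : Set N} (hU : IsOpen U) (hUn : U.Nonempty) : ∃ y ∈ U, y ∉ F := by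
  obtain ⟨x, hx⟩ := hUn
  obtain ⟨h, h1, h2, h3, h4⟩ := cell (n := n) x U hU hx
  obtain ⟨z, hz⟩ := (compl_fin hn h1 hF).nonempty
  exact ⟨h z, h4 (mem_range_self z), hz⟩

/-- the complement of a finite set is connected -/
theorem conn [T2Space N] [ConnectedSpace N] [IsManifold (𝓡 n) ∞ N] (hn : 1 < n) {F : Set N}
    (hF : F.Finite) {A B : Set N} (hA : IsOpen A) (hB : IsOpen B) (hAn : A.Nonempty)
    (hBn : B.Nonempty) (hAB : Fᶜ ⊆ A ∪ B) : (A ∩ B).Nonempty := by
  have hd : closure A ∪ closure B = univ := by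
    rw [← closure_union]
    apply eq_univ_of_forall
    intro x
    rw [_root_.mem_closure_iff]
    intro O hO hx
    obtain ⟨y, hy1, hy2⟩ := exists_off (n := n) hn hF hO ⟨x, hx⟩
    exact ⟨y, hy1, hAB hy2⟩
  obtain ⟨x, _, hx⟩ := isPreconnected_closed_iff.1 (isPreconnected_univ (α := N))
    (closure A) (closure B) isClosed_closure isClosed_closure hd.symm.subset
    (by obtain ⟨a, ha⟩ := hAn; exact ⟨a, mem_univ a, subset_closure ha⟩)
    (by obtain ⟨b, hb⟩ := hBn; exact ⟨b, mem_univ b, subset_closure hb⟩)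
  obtain ⟨h, h1, h2, h3, -⟩ := cell (n := n) x univ isOpen_univ (mem_univ x)
  have hr : IsOpen (range h) := by
    rw [← image_univ]
    exact isOpen_image_of_LD isOpen_univ (fun z _ => h2 z)
  have hc : Continuous h := continuous_iff_continuousAt.2 fun z => (h2 z).continuousAt
  have hpre : IsPreconnected (h '' (h ⁻¹' F)ᶜ) :=
    (compl_fin hn h1 hF).isPreconnected.image h hc.continuousOn
  have hxr : x ∈ range h := ⟨0, h3⟩
  have hsub : h '' (h ⁻¹' F)ᶜ ⊆ A ∪ B := by
    rintro _ ⟨z, hz, rfl⟩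
    exact hAB hz
  have hmeet : ∀ C : Set N, IsOpen C → x ∈ closure C →
      (h '' (h ⁻¹' F)ᶜ ∩ C).Nonempty := by
    intro C hC hxC
    obtain ⟨y, hy1, hy2⟩ := _root_.mem_closure_iff.1 hxC _ hr hxr
    obtain ⟨y', hy3, hy4⟩ := exists_off (n := n) hn hF (hr.inter hC) ⟨y, hy1, hy2⟩
    obtain ⟨z, rfl⟩ := hy3.1
    exact ⟨h z, ⟨z, hy4, rfl⟩, hy3.2⟩
  obtain ⟨y, _, hy⟩ := hpre A B hA hB hsub (hmeet A hA hx.1) (hmeet B hB hx.2)
  exact ⟨y, hy⟩

/-- homogeneity relative to a finite set -/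
theorem homog [T2Space N] [ConnectedSpace N] [IsManifold (𝓡 n) ∞ N] (hn : 1 < n) {F : Set N}
    (hF : F.Finite) {x y : N} (hx : x ∉ F) (hy : y ∉ F) :
    ∃ D : N → N, IsDf n D ∧ (∀ p ∈ F, D p = p) ∧ D x = y := by
  let R : N → N → Prop := fun a b => ∃ D : N → N, IsDf n D ∧ (∀ p ∈ F, D p = p) ∧ D a = b
  have hR1 : ∀ a, R a a := fun a => ⟨fun p => p, isDf_id, fun p _ => rfl, rfl⟩
  have hR2 : ∀ a b c, R a b → R b c → R a c := by
    rintro a b c ⟨D, hD1, hD2, hD3⟩ ⟨D', hD1', hD2', hD3'⟩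
    refine ⟨fun p => D' (D p), isDf_comp hD1' hD1, ?_, ?_⟩
    · intro p hp
      simp only [hD2 p hp, hD2' p hp]
    · simp only [hD3, hD3']
  have hR3 : ∀ a b, R a b → R b a := by
    rintro a b ⟨D, hD1, hD2, hD3⟩
    obtain ⟨g, hg1, hg2⟩ := isDf_inv hD1
    refine ⟨g, hg1, ?_, ?_⟩
    · intro p hp
      conv_lhs => rw [← hD2 p hp]
      exact hg2 p
    · rw [← hD3]
      exact hg2 a
  have hFo : IsOpen Fᶜ := hF.isClosed.isOpen_compl
  have hR4 : ∀ a, a ∉ F → ∃ O ∈ 𝓝 a, O ⊆ Fᶜ ∧ ∀ b ∈ O, R a b := by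
    intro a ha
    obtain ⟨O, hO1, hO2, hO3⟩ := reach (n := n) a Fᶜ hFo ha
    refine ⟨O, hO1, hO2, ?_⟩
    intro b hb
    obtain ⟨D, hD1, hD2, hD3⟩ := hO3 b hb
    exact ⟨D, hD1, fun p hp => hD3 p (fun h => h hp), hD2⟩
  by_contra hxy
  have hxy' : ¬ R x y := hxy
  have key := conn (n := n) hn hF (A := {b | b ∉ F ∧ R x b}) (B := {b | b ∉ F ∧ ¬ R x b})
    (by
      rw [isOpen_iff_mem_nhds]
      rintro b ⟨hb1, hb2⟩
      obtain ⟨O, hO1, hO2, hO3⟩ := hR4 b hb1
      filter_upwards [hO1] with c hc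
      exact ⟨hO2 hc, hR2 x b c hb2 (hO3 c hc)⟩)
    (by
      rw [isOpen_iff_mem_nhds]
      rintro b ⟨hb1, hb2⟩
      obtain ⟨O, hO1, hO2, hO3⟩ := hR4 b hb1
      filter_upwards [hO1] with c hc
      exact ⟨hO2 hc, fun h => hb2 (hR2 x c b h (hR3 b c (hO3 c hc)))⟩)
    ⟨x, hx, hR1 x⟩ ⟨y, hy, hxy'⟩
    (by
      intro b hb
      by_cases h : R x b
      · exact Or.inl ⟨hb, h⟩
      · exact Or.inr ⟨hb, h⟩)
  obtain ⟨b, hb1, hb2⟩ := key
  exact hb2.2 hb1.2

/-- the inductive proof, for finite sets -/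
theorem fin [T2Space N] [ConnectedSpace N] [IsManifold (𝓡 n) ∞ N] (hn : 1 < n) {U : Set N}
    (hU : IsOpen U) (hUn : U.Nonempty) {S : Set N} (hS : S.Finite) :
    ∃ D : N → N, IsDf n D ∧ ∀ p ∈ S, D p ∈ U := by
  induction S, hS using Set.Finite.induction_on with
  | empty => exact ⟨fun p => p, isDf_id, fun p hp => absurd hp (notMem_empty p)⟩
  | @insert a S _ hS ih =>
    obtain ⟨D', hD1, hD2⟩ := ih
    by_cases hx : D' a ∈ U
    · refine ⟨D', hD1, ?_⟩
      rintro p (rfl | hp)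
      · exact hx
      · exact hD2 p hp
    · have hF : (D' '' S).Finite := hS.image D'
      have hxF : D' a ∉ D' '' S := by
        rintro ⟨p, hp, hpa⟩
        apply hx
        rw [← hpa]
        exact hD2 p hp
      obtain ⟨y, hy1, hy2⟩ := exists_off (n := n) hn hF hU hUn
      obtain ⟨D, hD3, hD4, hD5⟩ := homog (n := n) hn hF hxF hy2
      refine ⟨fun p => D (D' p), isDf_comp hD3 hD1, ?_⟩
      rintro p (rfl | hp)
      · change D (D' p) ∈ U
        rw [hD5]
        exact hy1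
      · change D (D' p) ∈ U
        rw [hD4 _ ⟨p, hp, rfl⟩]
        exact hD2 p hp

end

theorem main : S_HMG := by
  intro n s N _ _ _ _ _ z U hn hU hUn
  obtain ⟨D, hD1, hD2⟩ := fin hn hU hUn (finite_range z)
  exact ⟨D, hD1, fun k => hD2 _ (mem_range_self k)⟩

end Pool.Agent.N550.CQ.Hmg
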