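import Pool.Agent.N550.CQ.Stm

/-!
# Project CQ, leaf PCS: closed null sets are covered by finitely many disjoint open cells
-/

set_option autoImplicit false

open Set Filter Topology Metric Function MeasureTheory
open scoped Manifold ContDiff

noncomputable section

namespace Pool.Agent.N550.CQ.Pcs

open Pool.Agent.Y522 Pool.Agent.N550.KH Pool.Agent.N550.CQ

variable {n : ℕ}

/-! ### The diffeomorphisms onto balls -/

/-- a smooth map with a differentiable local left inverse is a local diffeomorphism -/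
theorem LD_of_left {f g : E n → E n} {x : E n} (hf : ∀ᶠ y in 𝓝 x, ContDiffAt ℝ ∞ f y)
    (hg : DifferentiableAt ℝ g (f x)) (h : ∀ᶠ y in 𝓝 x, g (f y) = y) : LD n f x := by
  have hfx : DifferentiableAt ℝ f x := hf.self_of_nhds.differentiableAt (by simp)
  have h1 : HasFDerivAt (g ∘ f) ((fderiv ℝ g (f x)).comp (fderiv ℝ f x)) x :=
    hg.hasFDerivAt.comp x hfx.hasFDerivAt
  have h2 : HasFDerivAt (g ∘ f) (ContinuousLinearMap.id ℝ (E n)) x :=
    (hasFDerivAt_id x).congr_of_eventuallyEq h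
  have h3 := h1.unique h2
  have hinj : Injective (fderiv ℝ f x : E n →ₗ[ℝ] E n) := by
    intro a b hab
    have ha := congrArg (fun L => L a) h3
    have hb := congrArg (fun L => L b) h3
    simp only [ContinuousLinearMap.comp_apply, ContinuousLinearMap.id_apply] at ha hb
    have hab' : fderiv ℝ f x a = fderiv ℝ f x b := hab
    rw [← ha, ← hb, hab']
  let A : E n ≃ₗ[ℝ] E n := LinearEquiv.ofInjectiveEndo _ hinj
  refine LD_of_contDiffAt hf A.toContinuousLinearEquiv ?_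
  have h4 : ((A.toContinuousLinearEquiv : E n ≃L[ℝ] E n) : E n →L[ℝ] E n) = fderiv ℝ f x := by
    ext v : 1
    rfl
  rw [h4]
  exact hfx.hasFDerivAt

/-- the diffeomorphism of `E n` onto the ball of radius `ρ` -/
def jb (ρ : ℝ) (z : E n) : E n := ρ • (OpenPartialHomeomorph.univUnitBall z : E n)

theorem jb_zero (ρ : ℝ) : jb ρ (0 : E n) = 0 := by
  unfold jb
  rw [OpenPartialHomeomorph.univUnitBall_apply_zero, smul_zero]

theorem jb_left (ρ : ℝ) (hρ : 0 < ρ) (z : E n) :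
    (OpenPartialHomeomorph.univUnitBall (E := E n)).symm (ρ⁻¹ • jb ρ z) = z := by
  unfold jb
  rw [smul_smul, inv_mul_cancel₀ hρ.ne', one_smul]
  exact OpenPartialHomeomorph.univUnitBall.left_inv (mem_univ z)

theorem jb_inj (ρ : ℝ) (hρ : 0 < ρ) : Injective (jb ρ : E n → E n) := fun x y h => by
  rw [← jb_left ρ hρ x, h, jb_left ρ hρ y]

theorem jb_norm (ρ : ℝ) (hρ : 0 < ρ) (z : E n) : ‖jb ρ z‖ < ρ := by
  unfold jb
  have h : (OpenPartialHomeomorph.univUnitBall z : E n) ∈ ball (0 : E n) 1 :=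
    OpenPartialHomeomorph.univUnitBall.map_source (mem_univ z)
  rw [mem_ball_zero_iff] at h
  rw [norm_smul, Real.norm_of_nonneg hρ.le]
  exact mul_lt_of_lt_one_right hρ h

theorem jb_surj (ρ : ℝ) (hρ : 0 < ρ) (w : E n) (hw : ‖w‖ < ρ) : ∃ z, jb ρ z = w := by
  have h1 : ρ⁻¹ • w ∈ (OpenPartialHomeomorph.univUnitBall (E := E n)).target := by
    show ρ⁻¹ • w ∈ ball (0 : E n) 1
    rw [mem_ball_zero_iff, norm_smul, norm_inv, Real.norm_of_nonneg hρ.le, inv_mul_lt_iff₀ hρ]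
    simpa using hw
  refine ⟨(OpenPartialHomeomorph.univUnitBall (E := E n)).symm (ρ⁻¹ • w), ?_⟩
  unfold jb
  rw [OpenPartialHomeomorph.univUnitBall.right_inv h1, smul_smul, mul_inv_cancel₀ hρ.ne', one_smul]

theorem jb_LD (ρ : ℝ) (hρ : 0 < ρ) (z : E n) : LD n (jb ρ) z := by
  refine LD_of_left (g := fun w => (OpenPartialHomeomorph.univUnitBall (E := E n)).symm (ρ⁻¹ • w))
    ?_ ?_ ?_
  · refine Eventually.of_forall fun y => ?_
    exact (OpenPartialHomeomorph.contDiff_univUnitBall.contDiffAt).const_smul ρ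
  · have h1 : ρ⁻¹ • jb ρ z ∈ ball (0 : E n) 1 := by
      rw [mem_ball_zero_iff, norm_smul, norm_inv, Real.norm_of_nonneg hρ.le, inv_mul_lt_iff₀ hρ]
      simpa using jb_norm ρ hρ z
    have h2 : ContDiffAt ℝ 1 (OpenPartialHomeomorph.univUnitBall (E := E n)).symm
        (ρ⁻¹ • jb ρ z) :=
      (OpenPartialHomeomorph.contDiffOn_univUnitBall_symm (n := 1)).contDiffAt
        (isOpen_ball.mem_nhds h1)
    have h3 := (h2.differentiableAt (by simp))
    exact h3.comp _ (differentiableAt_id.const_smul ρ⁻¹)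
  · exact Eventually.of_forall fun y => jb_left ρ hρ y

/-- the diffeomorphism of `E n` onto the ball about `w` of radius `ρ` -/
def ub (w : E n) (ρ : ℝ) (z : E n) : E n := jb ρ z + w

theorem ub_zero (w : E n) (ρ : ℝ) : ub w ρ 0 = w := by
  rw [ub, jb_zero, zero_add]

theorem ub_inj (w : E n) {ρ : ℝ} (hρ : 0 < ρ) : Injective (ub w ρ) := fun _ _ h =>
  jb_inj ρ hρ (add_right_cancel h)

theorem ub_LD (w : E n) {ρ : ℝ} (hρ : 0 < ρ) (z : E n) : LD n (ub w ρ) z :=
  LD.comp_fun (g := fun y => y + w) (LD_add_const w (jb ρ z)) (jb_LD ρ hρ z)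

theorem ub_mem (w : E n) {ρ : ℝ} (hρ : 0 < ρ) (z : E n) : ub w ρ z ∈ ball w ρ := by
  rw [mem_ball_iff_norm, ub, add_sub_cancel_right]
  exact jb_norm ρ hρ z

theorem ub_surj (w : E n) {ρ : ℝ} (hρ : 0 < ρ) {y : E n} (hy : y ∈ ball w ρ) :
    ∃ z, ub w ρ z = y := by
  rw [mem_ball_iff_norm] at hy
  obtain ⟨z, hz⟩ := jb_surj ρ hρ _ hy
  exact ⟨z, by rw [ub, hz, sub_add_cancel]⟩

/-! ### Cells about points -/

section cells

variable {N : Type} [TopologicalSpace N] [ChartedSpace (E n) N] [IsManifold (𝓡 n) ∞ N]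

/-- the preferred chart as a local diffeomorphism -/
def chPD (x : N) : PartialDiffeomorph (𝓡 n) (𝓡 n) N (E n) ∞ where
  toPartialEquiv := (chartAt (E n) x).toPartialEquiv
  open_source := (chartAt (E n) x).open_source
  open_target := (chartAt (E n) x).open_target
  contMDiffOn_toFun := contMDiffOn_chart
  contMDiffOn_invFun := contMDiffOn_chart_symm

theorem exists_cell (x : N) :
    ∃ g : E n → N, Injective g ∧ (∀ z, LD n g z) ∧ g 0 = x := by
  set c : E n := chartAt (E n) x x with hc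
  have hct : c ∈ (chartAt (E n) x).target := mem_chart_target (E n) x
  obtain ⟨ρ, hρ, hb⟩ := Metric.isOpen_iff.1 (chartAt (E n) x).open_target c hct
  refine ⟨fun z => (chartAt (E n) x).symm (ub c ρ z), ?_, ?_, ?_⟩
  · intro a b hab
    exact ub_inj c hρ ((chartAt (E n) x).symm.injOn (hb (ub_mem c hρ a)) (hb (ub_mem c hρ b)) hab)
  · intro z
    have h1 : LD n (chartAt (E n) x).symm (ub c ρ z) :=
      ⟨(chPD x).symm, hb (ub_mem c hρ z), fun _ _ => rfl⟩
    exact LD.comp_fun h1 (ub_LD c hρ z)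
  · show (chartAt (E n) x).symm (ub c ρ 0) = x
    rw [ub_zero]
    exact (chartAt (E n) x).left_inv (mem_chart_source (E n) x)

end cells

/-- a null set misses a sphere -/
theorem exists_radius {A : Set (E n)} (hA : Measure.hausdorffMeasure 1 A = 0) :
    ∃ r : ℝ, 0 < r ∧ r < 1 ∧ ∀ z ∈ A, ‖z‖ ≠ r := by
  by_contra hcon
  push Not at hcon
  have h1 : Ioo (0 : ℝ) 1 ⊆ (fun z : E n => ‖z‖) '' A := by
    intro r hr
    obtain ⟨z, hz, hzr⟩ := hcon r hr.1 hr.2
    exact ⟨z, hz, hzr⟩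
  have h2 : Measure.hausdorffMeasure 1 ((fun z : E n => ‖z‖) '' A) ≤
      ((1 : NNReal) : ENNReal) ^ (1 : ℝ) * Measure.hausdorffMeasure 1 A :=
    (lipschitzWith_one_norm (E := E n)).hausdorffMeasure_image_le zero_le_one A
  rw [hA, mul_zero, hausdorffMeasure_real] at h2
  have h3 : volume (Ioo (0 : ℝ) 1) ≤ 0 := (measure_mono h1).trans h2
  rw [Real.volume_Ioo] at h3
  simp at h3

/-- disjoint neighbourhoods of finitely many disjoint compact sets -/
theorem exists_nhds {N : Type} [TopologicalSpace N] [T2Space N] {q : ℕ} (K : Fin q → Set N)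
    (hK : ∀ i, IsCompact (K i)) (hd : ∀ i j, i ≠ j → Disjoint (K i) (K j)) :
    ∃ W : Fin q → Set N, (∀ i, IsOpen (W i)) ∧ (∀ i, K i ⊆ W i) ∧
      ∀ i j, i ≠ j → Disjoint (W i) (W j) := by
  have hsep : ∀ i j, ∃ U V : Set N, IsOpen U ∧ IsOpen V ∧ K i ⊆ U ∧ K j ⊆ V ∧
      (i ≠ j → Disjoint U V) := by
    intro i j
    by_cases hij : i = j
    · exact ⟨univ, univ, isOpen_univ, isOpen_univ, subset_univ _, subset_univ _,
        fun h => absurd hij h⟩
    · obtain ⟨U, V, hU, hV, h1, h2, h3⟩ :=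
        SeparatedNhds.of_isCompact_isCompact (hK i) (hK j) (hd i j hij)
      exact ⟨U, V, hU, hV, h1, h2, fun _ => h3⟩
  choose U V hU hV hKU hKV hUV using hsep
  refine ⟨fun i => ⋂ j, (U i j ∩ V j i), ?_, ?_, ?_⟩
  · intro i
    exact isOpen_iInter_of_finite fun j => (hU i j).inter (hV j i)
  · intro i
    exact subset_iInter fun j => subset_inter (hKU i j) (hKV j i)
  · intro i j hij
    refine (hUV i j hij).mono ?_ ?_
    · exact (iInter_subset _ j).trans inter_subset_left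
    · exact (iInter_subset _ i).trans inter_subset_right

theorem main : S_BALLS → S_PCS := by
  classical
  intro hBalls n N _ _ _ _ _ B hn hB hnull
  have hcell : ∀ x : N, ∃ g : E n → N, Injective g ∧ (∀ z, LD n g z) ∧ g 0 = x := exists_cell
  choose g hgi hgd hg0 using hcell
  have hgc : ∀ x, Continuous (g x) := fun x =>
    continuous_iff_continuousAt.2 fun z => (hgd x z).continuousAt
  have hrad : ∀ x : N, ∃ r : ℝ, 0 < r ∧ r < 1 ∧ ∀ z ∈ g x ⁻¹' B, ‖z‖ ≠ r := fun x =>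
    exists_radius (hnull (g x) (hgi x) (hgd x))
  choose r hr0 hr1 hr using hrad
  -- the open sets
  set O : N → Set N := fun x => g x '' ball 0 (r x) with hO
  have hOo : ∀ x, IsOpen (O x) := fun x => isOpen_image_of_LD isOpen_ball fun z _ => hgd x z
  have hxO : ∀ x, x ∈ O x := fun x => ⟨0, mem_ball_self (hr0 x), hg0 x⟩
  obtain ⟨t, ht⟩ := hB.isCompact.elim_finite_subcover O hOo
    (fun x _ => mem_iUnion.2 ⟨x, hxO x⟩)
  -- enumerate
  obtain ⟨q, p, hp⟩ : ∃ (q : ℕ) (p : Fin q → N), ∀ y ∈ B, ∃ i, y ∈ O (p i) := by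
    refine ⟨t.card, fun i => (t.equivFin.symm i).1, ?_⟩
    intro y hy
    obtain ⟨x, hx, hyx⟩ := mem_iUnion₂.1 (ht hy)
    refine ⟨t.equivFin ⟨x, hx⟩, ?_⟩
    have h1 : (fun i => (t.equivFin.symm i).1) (t.equivFin ⟨x, hx⟩) = x :=
      congrArg Subtype.val (Equiv.symm_apply_apply t.equivFin ⟨x, hx⟩)
    rw [h1]
    exact hyx
  set K : Fin q → Set N := fun i => {y | y ∈ B ∧ y ∈ O (p i) ∧ ∀ j < i, y ∉ O (p j)} with hKdef
  have hcl : ∀ x, B ∩ O x = B ∩ g x '' closedBall 0 (r x) := by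
    intro x
    apply Subset.antisymm
    · exact inter_subset_inter_right _ (image_mono ball_subset_closedBall)
    · rintro _ ⟨hy, z, hz, rfl⟩
      refine ⟨hy, z, ?_, rfl⟩
      rw [mem_closedBall_zero_iff] at hz
      rw [mem_ball_zero_iff]
      exact lt_of_le_of_ne hz (hr x z hy)
  have hKclosed : ∀ i, IsClosed (K i) := by
    intro i
    have h1 : K i = (B ∩ g (p i) '' closedBall 0 (r (p i))) ∩ ⋂ j, ⋂ (_ : j < i), (O (p j))ᶜ := by
      rw [← hcl]
      ext y
      simp only [hKdef, Set.mem_ofPred_eq, mem_inter_iff, mem_iInter, mem_compl_iff]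
      tauto
    rw [h1]
    refine IsClosed.inter (hB.inter ?_) ?_
    · exact ((isCompact_closedBall _ _).image (hgc _)).isClosed
    · exact isClosed_iInter fun j => isClosed_iInter fun _ => (hOo _).isClosed_compl
  have hKdisj : ∀ i j, i ≠ j → Disjoint (K i) (K j) := by
    intro i j hij
    rw [Set.disjoint_left]
    rintro y ⟨_, h1, h2⟩ ⟨_, h3, h4⟩
    rcases lt_or_gt_of_ne hij with h | h
    · exact h4 i h h1
    · exact h2 j h h3
  have hKcov : ∀ y ∈ B, ∃ i, y ∈ K i := by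
    intro y hy
    obtain ⟨i, hi, hmin⟩ := WellFounded.has_min (wellFounded_lt (α := Fin q))
      {i | y ∈ O (p i)} (hp y hy)
    exact ⟨i, hy, hi, fun j hj hyj => hmin j hyj hj⟩
  obtain ⟨W, hWo, hKW, hWd⟩ := exists_nhds K (fun i => (hKclosed i).isCompact) hKdisj
  -- the balls
  have hb : ∀ i, ∃ (s : ℕ) (w : Fin s → E n) (ρ : Fin s → ℝ), (∀ k, 0 < ρ k) ∧
      (∀ k, closedBall (w k) (ρ k) ⊆ g (p i) ⁻¹' W i) ∧
      (∀ k l, k ≠ l → Disjoint (closedBall (w k) (ρ k)) (closedBall (w l) (ρ l))) ∧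
      g (p i) ⁻¹' K i ⊆ ⋃ k, ball (w k) (ρ k) := by
    intro i
    refine hBalls n (g (p i) ⁻¹' K i) (g (p i) ⁻¹' W i) ?_ ?_ ((hWo i).preimage (hgc _))
      (preimage_mono (hKW i))
    · refine (isCompact_closedBall (0 : E n) (r (p i))).of_isClosed_subset
        ((hKclosed i).preimage (hgc _)) ?_
      rintro z ⟨_, ⟨z', hz', hzz⟩, _⟩
      rw [← hgi (p i) hzz]
      exact ball_subset_closedBall hz'
    · refine measure_mono_null ?_ (hnull (g (p i)) (hgi _) (hgd _))
      exact fun z hz => hz.1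
  choose s w ρ hρ hbW hbd hbc using hb
  -- the cells
  set ι := Σ i : Fin q, Fin (s i) with hι
  set e : ι ≃ Fin (Fintype.card ι) := Fintype.equivFin ι with he
  set c : ι → E n → N := fun a z => g (p a.1) (ub (w a.1 a.2) (ρ a.1 a.2) z) with hc
  have hcW : ∀ a z, c a z ∈ W a.1 := fun a z =>
    hbW a.1 a.2 (ball_subset_closedBall (ub_mem _ (hρ a.1 a.2) z))
  have hcd : ∀ a b : ι, a ≠ b → Disjoint (range (c a)) (range (c b)) := by
    rintro ⟨i, k⟩ ⟨j, l⟩ hab
    rw [Set.disjoint_left]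
    rintro _ ⟨z, rfl⟩ ⟨z', hz'⟩
    by_cases hij : i = j
    · subst hij
      have hkl : k ≠ l := fun h => hab (by rw [h])
      have h1 : ub (w i l) (ρ i l) z' = ub (w i k) (ρ i k) z := hgi (p i) hz'
      have h2 := ball_subset_closedBall (ub_mem (w i k) (hρ i k) z)
      have h3 := ball_subset_closedBall (ub_mem (w i l) (hρ i l) z')
      rw [h1] at h3
      exact Set.disjoint_left.1 (hbd i k l hkl) h2 h3
    · have h1 := hcW ⟨i, k⟩ z
      have h2 := hcW ⟨j, l⟩ z'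
      rw [hz'] at h2
      exact Set.disjoint_left.1 (hWd i j hij) h1 h2
  refine ⟨Fintype.card ι, fun k => c (e.symm k), ?_, ?_, ?_, ?_⟩
  · intro k x y hxy
    exact ub_inj _ (hρ _ _) (hgi _ hxy)
  · intro k z
    exact LD.comp_fun (hgd _ _) (ub_LD _ (hρ _ _) z)
  · intro k l hkl
    exact hcd _ _ fun h => hkl (e.symm.injective h)
  · intro y hy
    obtain ⟨i, hi⟩ := hKcov y hy
    obtain ⟨z, hz, hzy⟩ := hi.2.1
    have hz' : z ∈ g (p i) ⁻¹' K i := by
      show g (p i) z ∈ K i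
      rw [hzy]; exact hi
    obtain ⟨k, hk⟩ := mem_iUnion.1 (hbc i hz')
    obtain ⟨u, hu⟩ := ub_surj _ (hρ i k) hk
    refine mem_iUnion.2 ⟨e ⟨i, k⟩, u, ?_⟩
    show c (e.symm (e ⟨i, k⟩)) u = y
    rw [Equiv.symm_apply_apply]
    show g (p i) (ub (w i k) (ρ i k) u) = y
    rw [hu, hzy]

end Pool.Agent.N550.CQ.Pcs

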