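import Pool.Agent.N550.KH.Null
import Pool.Agent.N550.CQ.CellQ
import Pool.Agent.N550.CQ.Pcs
import Pool.Agent.N550.CQ.Hmg
import Pool.Agent.N550.CQ.Balls
import Pool.Agent.N550.CQ.Cok
import Pool.Agent.N550.CQ.Eng

/-!
# Project CQ: all the lemmas together
-/

set_option autoImplicit false

open Set Filter Topology Metric Function MeasureTheory
open scoped Manifold ContDiff

noncomputable section

namespace Pool.Agent.N550.CQ

open Pool.Agent.Y522 Pool.Agent.N550.KH

theorem eng : S_ENG := Eng.main (Pcs.main Balls.main) Hmg.main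

theorem cellQ : S_CELLQ := CellQ.main Cok.main

end Pool.Agent.N550.CQ
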