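import Pool.Agent.N550.CQ.Stm2

/-!
# Project CQ: the images of the points of rank zero, manifold version

The statement for manifolds follows from the statement for open subsets of Euclidean spaces, by
countably many charts.
-/

set_option autoImplicit false

open Set Filter Topology Metric Function MeasureTheory
open scoped Manifold ContDiff

noncomputable section

namespace Pool.Agent.N550.CQ.Rkm

open Pool.Agent.Y522 Pool.Agent.N550.KH Pool.Agent.N550.CQ

/-- a linear map of rank zero is zero -/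
theorem lin_zero {n : ℕ} (L : E n →L[ℝ] E n)
    (h : Module.finrank ℝ (LinearMap.range L.toLinearMap) = 0) : L = 0 := by
  have h1 : LinearMap.range L.toLinearMap = ⊥ := Submodule.finrank_eq_zero.1 h
  have h2 := LinearMap.range_eq_bot.1 h1
  ext1 v
  exact congrArg (fun A => A v) h2

/-- the derivative at the points of rank zero -/
theorem mfderiv_zero {n : ℕ} {M N : Type} [TopologicalSpace M] [ChartedSpace (E n) M]
    [TopologicalSpace N] [ChartedSpace (E n) N] {f : M → N} {x : M} (h : rk n f x = 0) :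
    mfderiv (𝓡 n) (𝓡 n) f x = 0 := by
  exact lin_zero (n := n) (mfderiv (𝓡 n) (𝓡 n) f x) h

/-- the complement of the bad set is open -/
theorem isOpen_good (n : ℕ) {M N : Type} [TopologicalSpace M] [ChartedSpace (E n) M]
    [TopologicalSpace N] [ChartedSpace (E n) N] (f : M → N) : IsOpen {x | x ∉ Bad n f} := by
  have h1 : {x | x ∉ Bad n f} = {x | ∀ᶠ y in 𝓝 x, ContMDiffAt (𝓡 n) (𝓡 n) ∞ f y} := by
    ext x
    simp only [Bad, mem_ofPred_eq, not_not]
  rw [h1]
  exact isOpen_setOfPred_eventually_nhds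

theorem main : S_SARD0 → S_RKM := by
  intro hS n M N _ _ _ _ _ _ _ f hf h hi hd
  have hro : IsOpen (range h) := by
    rw [← image_univ]
    exact isOpen_image_of_LD isOpen_univ (fun x _ => hd x)
  obtain ⟨g, hg⟩ : ∃ g : N → E n, ∀ z, g (h z) = z := ⟨invFun h, leftInverse_invFun hi⟩
  have hgd : ∀ z, LD n g (h z) := fun z =>
    LD.inverse isOpen_univ (fun x _ => hd x) (fun x _ => hg x) (mem_univ z)
  obtain ⟨s, hs, hsu⟩ := TopologicalSpace.countable_cover_nhds
    (fun x : M => (chartAt (E n) x).open_source.mem_nhds (mem_chart_source (E n) x))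
  -- the pieces
  let V : M → Set (E n) := fun x₀ =>
    (chartAt (E n) x₀).target ∩ (chartAt (E n) x₀).symm ⁻¹'
      ({x | x ∉ Bad n f} ∩ f ⁻¹' range h)
  let F : M → E n → E n := fun x₀ u => g (f ((chartAt (E n) x₀).symm u))
  have hVo : ∀ x₀, IsOpen (V x₀) := fun x₀ =>
    (chartAt (E n) x₀).isOpen_inter_preimage_symm ((isOpen_good n f).inter (hro.preimage hf))
  have hsm : ∀ x₀, ∀ u ∈ V x₀,
      ContMDiffAt (𝓡 n) (𝓡 n) ∞ (chartAt (E n) x₀).symm u := by
    intro x₀ u hu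
    exact (contMDiffOn_chart_symm (I := 𝓡 n) (n := ∞) (x := x₀) u hu.1).contMDiffAt
      ((chartAt (E n) x₀).open_target.mem_nhds hu.1)
  have hfm : ∀ x₀, ∀ u ∈ V x₀,
      ContMDiffAt (𝓡 n) (𝓡 n) ∞ f ((chartAt (E n) x₀).symm u) := by
    intro x₀ u hu
    have h1 : (chartAt (E n) x₀).symm u ∉ Bad n f := hu.2.1
    simp only [Bad, mem_ofPred_eq, not_not] at h1
    exact h1.self_of_nhds
  have hgm : ∀ x₀, ∀ u ∈ V x₀,
      ContMDiffAt (𝓡 n) (𝓡 n) ∞ g (f ((chartAt (E n) x₀).symm u)) := by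
    intro x₀ u hu
    obtain ⟨z, hz⟩ := hu.2.2
    have h2 : f ((chartAt (E n) x₀).symm u) = h z := hz.symm
    rw [h2]
    exact (hgd z).contMDiffAt
  have hFd : ∀ x₀, ContDiffOn ℝ ∞ (F x₀) (V x₀) := by
    intro x₀ u hu
    refine ContDiffAt.contDiffWithinAt (contMDiffAt_iff_contDiffAt.1 ?_)
    have h1 : ContMDiffAt (𝓡 n) (𝓡 n) ∞ (fun u => f ((chartAt (E n) x₀).symm u)) u :=
      ContMDiffAt.comp u (hfm x₀ u hu) (hsm x₀ u hu)
    exact ContMDiffAt.comp u (hgm x₀ u hu) h1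
  have hF0 : ∀ x₀, ∀ u ∈ V x₀, rk n f ((chartAt (E n) x₀).symm u) = 0 →
      fderiv ℝ (F x₀) u = 0 := by
    intro x₀ u hu h0
    have h1 : mfderiv (𝓡 n) (𝓡 n) f ((chartAt (E n) x₀).symm u) = 0 := mfderiv_zero h0
    have a1 : MDifferentiableAt (𝓡 n) (𝓡 n) (chartAt (E n) x₀).symm u :=
      (hsm x₀ u hu).mdifferentiableAt (by simp)
    have a2 : MDifferentiableAt (𝓡 n) (𝓡 n) f ((chartAt (E n) x₀).symm u) :=
      (hfm x₀ u hu).mdifferentiableAt (by simp)
    have a3 : MDifferentiableAt (𝓡 n) (𝓡 n) g (f ((chartAt (E n) x₀).symm u)) :=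
      (hgm x₀ u hu).mdifferentiableAt (by simp)
    have h2 : mfderiv (𝓡 n) (𝓡 n) (f ∘ (chartAt (E n) x₀).symm) u = 0 := by
      rw [mfderiv_comp u a2 a1, h1]
      rfl
    have a4 : MDifferentiableAt (𝓡 n) (𝓡 n) (f ∘ (chartAt (E n) x₀).symm) u :=
      MDifferentiableAt.comp u a2 a1
    have h3 : mfderiv (𝓡 n) (𝓡 n) (g ∘ (f ∘ (chartAt (E n) x₀).symm)) u = 0 := by
      rw [mfderiv_comp u a3 a4, h2]
      exact ContinuousLinearMap.comp_zero _
    have h4 : fderiv ℝ (F x₀) u = mfderiv (𝓡 n) (𝓡 n) (F x₀) u := mfderiv_eq_fderiv.symm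
    rw [h4]
    exact h3
  -- the conclusion
  have hcov : h ⁻¹' (f '' {x | x ∉ Bad n f ∧ rk n f x = 0}) ⊆
      ⋃ x₀ ∈ s, F x₀ '' {u | u ∈ V x₀ ∧ fderiv ℝ (F x₀) u = 0} := by
    rintro z ⟨x, ⟨hx1, hx2⟩, hx3⟩
    have hx4 : x ∈ ⋃ x₀ ∈ s, (chartAt (E n) x₀).source := by
      rw [hsu]
      exact mem_univ x
    obtain ⟨x₀, hx₀, hx5⟩ := mem_iUnion₂.1 hx4
    refine mem_iUnion₂.2 ⟨x₀, hx₀, (chartAt (E n) x₀) x, ?_, ?_⟩
    · have h1 : (chartAt (E n) x₀).symm ((chartAt (E n) x₀) x) = x :=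
        (chartAt (E n) x₀).left_inv hx5
      have hV : (chartAt (E n) x₀) x ∈ V x₀ := by
        refine ⟨(chartAt (E n) x₀).map_source hx5, ?_, ?_⟩
        · change (chartAt (E n) x₀).symm ((chartAt (E n) x₀) x) ∉ Bad n f
          rw [h1]
          exact hx1
        · change f ((chartAt (E n) x₀).symm ((chartAt (E n) x₀) x)) ∈ range h
          rw [h1]
          exact ⟨z, hx3.symm⟩
      refine ⟨hV, hF0 x₀ _ hV ?_⟩
      rw [h1]
      exact hx2
    · change g (f ((chartAt (E n) x₀).symm ((chartAt (E n) x₀) x))) = z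
      rw [(chartAt (E n) x₀).left_inv hx5, hx3, hg]
  refine measure_mono_null hcov ?_
  rw [measure_biUnion_null_iff hs]
  intro x₀ _
  exact hS n n (V x₀) (F x₀) (hVo x₀) (hFd x₀) 1 one_pos

end Pool.Agent.N550.CQ.Rkm
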