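import Pool.Agent.N550.CQ.Stm2
import Pool.Agent.Y522.Tools

/-!
# Project CQ: the theorem for maps without points of intermediate rank
-/

set_option autoImplicit false

open Set Filter Topology Metric Function MeasureTheory
open scoped Manifold ContDiff

noncomputable section

namespace Pool.Agent.N550.CQ.Rkq

open Pool.Agent.Y522 Pool.Agent.N550.KH Pool.Agent.N550.CQ

section

variable {n : ℕ} {M N P : Type} [TopologicalSpace M] [ChartedSpace (E n) M] [IsManifold (𝓡 n) ∞ M]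
  [TopologicalSpace N] [ChartedSpace (E n) N] [IsManifold (𝓡 n) ∞ N]
  [TopologicalSpace P] [ChartedSpace (E n) P] [IsManifold (𝓡 n) ∞ P]

def chP (x₀ : M) : PartialDiffeomorph (𝓡 n) (𝓡 n) M (E n) ∞ where
  toPartialEquiv := (chartAt (E n) x₀).toPartialEquiv
  open_source := (chartAt (E n) x₀).open_source
  open_target := (chartAt (E n) x₀).open_target
  contMDiffOn_toFun := contMDiffOn_chart
  contMDiffOn_invFun := contMDiffOn_chart_symm

theorem ld_chart (x₀ x : M) (hx : x ∈ (chartAt (E n) x₀).source) :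
    LD n (chartAt (E n) x₀) x := ⟨chP x₀, hx, fun _ _ => rfl⟩

theorem ld_chart_symm (x₀ : M) (z : E n) (hz : z ∈ (chartAt (E n) x₀).target) :
    LD n (chartAt (E n) x₀).symm z := ⟨(chP x₀).symm, hz, fun _ _ => rfl⟩

omit [IsManifold (𝓡 n) ∞ N] in
/-- the rank of a composition with a local diffeomorphism at the source -/
theorem rk_comp_right (f : M → N) (α : P → M) (z : P) (hα : LD n α z)
    (hf : MDifferentiableAt (𝓡 n) (𝓡 n) f (α z)) : rk n (fun y => f (α y)) z = rk n f (α z) := by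
  have h1 : (mfderiv (𝓡 n) (𝓡 n) (f ∘ α) z : E n →L[ℝ] E n) =
      (mfderiv (𝓡 n) (𝓡 n) f (α z) : E n →L[ℝ] E n).comp
        (mfderiv (𝓡 n) (𝓡 n) α z : E n →L[ℝ] E n) :=
    mfderiv_comp z hf hα.mdifferentiableAt
  have h7 : ∀ V' : E n →L[ℝ] E n, Injective V' → Surjective V' := fun V' hV' =>
    (LinearMap.injective_iff_surjective (f := V'.toLinearMap)).1 hV'
  have hs := h7 _ hα.mfderiv_injective
  have h3 : ∀ A B V' : E n →L[ℝ] E n, A = B.comp V' → Surjective V' →
      Module.finrank ℝ (LinearMap.range A.toLinearMap) =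
        Module.finrank ℝ (LinearMap.range B.toLinearMap) := by
    rintro _ B V' rfl hV
    have e1 : LinearMap.range (B.comp V').toLinearMap = LinearMap.range B.toLinearMap := by
      ext y
      constructor
      · rintro ⟨v, rfl⟩
        exact ⟨_, rfl⟩
      · rintro ⟨v, rfl⟩
        obtain ⟨u, rfl⟩ := hV v
        exact ⟨u, rfl⟩
    rw [e1]
  exact h3 _ _ _ h1 hs

omit [IsManifold (𝓡 n) ∞ M] in
/-- the rank of a composition with a local diffeomorphism at the target -/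
theorem rk_comp_left (f : M → N) (β : N → P) (x : M) (hβ : LD n β (f x))
    (hf : MDifferentiableAt (𝓡 n) (𝓡 n) f x) : rk n (fun y => β (f y)) x = rk n f x := by
  have h1 : (mfderiv (𝓡 n) (𝓡 n) (β ∘ f) x : E n →L[ℝ] E n) =
      (mfderiv (𝓡 n) (𝓡 n) β (f x) : E n →L[ℝ] E n).comp
        (mfderiv (𝓡 n) (𝓡 n) f x : E n →L[ℝ] E n) :=
    mfderiv_comp x hβ.mdifferentiableAt hf
  have h3 : ∀ A B V' : E n →L[ℝ] E n, A = V'.comp B → Injective V' →
      Module.finrank ℝ (LinearMap.range A.toLinearMap) =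
        Module.finrank ℝ (LinearMap.range B.toLinearMap) := by
    rintro _ B V' rfl hV
    have e1 : LinearMap.range (V'.comp B).toLinearMap =
        (LinearMap.range B.toLinearMap).map V'.toLinearMap := by
      ext y
      constructor
      · rintro ⟨v, rfl⟩
        exact ⟨B v, ⟨v, rfl⟩, rfl⟩
      · rintro ⟨_, ⟨v, rfl⟩, rfl⟩
        exact ⟨v, rfl⟩
    rw [e1]
    exact (Submodule.equivMapOfInjective V'.toLinearMap hV _).symm.finrank_eq
  exact h3 _ _ _ h1 hβ.mfderiv_injective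

/-- the rank is lower semicontinuous where the map is smooth -/
theorem rk_open (f : M → N) (m : ℕ) : IsOpen {x | x ∉ Bad n f ∧ m ≤ rk n f x} := by
  rw [isOpen_iff_mem_nhds]
  rintro x₀ ⟨hx0, hm⟩
  have hs : ∀ᶠ y in 𝓝 x₀, ContMDiffAt (𝓡 n) (𝓡 n) ∞ f y := not_not.1 hx0
  set e := chartAt (E n) x₀ with he
  set e' := chartAt (E n) (f x₀) with he'
  have hxs : x₀ ∈ e.source := mem_chart_source (E n) x₀
  have hfx : f x₀ ∈ e'.source := mem_chart_source (E n) (f x₀)
  set g : E n → E n := fun z => e' (f (e.symm z)) with hg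
  have key : ∀ y, y ∈ e.source → f y ∈ e'.source → ContMDiffAt (𝓡 n) (𝓡 n) ∞ f y →
      ContMDiffAt (𝓡 n) (𝓡 n) ∞ g (e y) ∧ rk n g (e y) = rk n f y := by
    intro y hy hfy hfs
    have h1 : LD n e.symm (e y) := ld_chart_symm x₀ _ (e.map_source hy)
    have h2 : e.symm (e y) = y := e.left_inv hy
    have h3 : LD n e' (f y) := ld_chart (f x₀) _ hfy
    have h4 : ContMDiffAt (𝓡 n) (𝓡 n) ∞ (fun x => e' (f x)) y :=
      h3.contMDiffAt.comp y hfs
    constructor
    · have h5 : ContMDiffAt (𝓡 n) (𝓡 n) ∞ (fun x => e' (f x)) (e.symm (e y)) := by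
        rw [h2]; exact h4
      exact h5.comp (e y) h1.contMDiffAt
    · have h5 : MDifferentiableAt (𝓡 n) (𝓡 n) (fun x => e' (f x)) (e.symm (e y)) := by
        rw [h2]; exact h4.mdifferentiableAt (by simp)
      rw [hg, rk_comp_right (fun x => e' (f x)) e.symm (e y) h1 h5, h2]
      exact rk_comp_left f e' y h3 (hfs.mdifferentiableAt (by simp))
  have hev1 : ∀ᶠ y in 𝓝 x₀, y ∈ e.source := e.open_source.mem_nhds hxs
  have hev2 : ∀ᶠ y in 𝓝 x₀, f y ∈ e'.source :=
    hs.self_of_nhds.continuousAt.eventually (e'.open_source.mem_nhds hfx)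
  have hev : ∀ᶠ y in 𝓝 x₀, y ∈ e.source ∧ f y ∈ e'.source ∧ ContMDiffAt (𝓡 n) (𝓡 n) ∞ f y :=
    hev1.and (hev2.and hs)
  obtain ⟨h1, h2⟩ := key x₀ hxs hfx hs.self_of_nhds
  have h3 : ContDiffAt ℝ ∞ g (e x₀) := contMDiffAt_iff_contDiffAt.1 h1
  have h4 : ContinuousAt (fderiv ℝ g) (e x₀) :=
    (h3.fderiv_right (m := 0) (by simp)).continuousAt
  have hrk : ∀ z, ((m : Cardinal) ≤ (fderiv ℝ g z : E n →ₗ[ℝ] E n).rank ↔ m ≤ rk n g z) := by
    intro z
    have h5 : rk n g z = Module.finrank ℝ (LinearMap.range (fderiv ℝ g z).toLinearMap) := by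
      have h6 : (mfderiv (𝓡 n) (𝓡 n) g z : E n →L[ℝ] E n) = fderiv ℝ g z := mfderiv_eq_fderiv
      have h7 : ∀ A B : E n →L[ℝ] E n, A = B → Module.finrank ℝ (LinearMap.range A.toLinearMap) =
          Module.finrank ℝ (LinearMap.range B.toLinearMap) := by
        rintro A _ rfl
        rfl
      exact h7 _ _ h6
    rw [h5, LinearMap.rank, ← Module.finrank_eq_rank, Nat.cast_le]
  have h5 : ∀ᶠ z in 𝓝 (e x₀), (m : Cardinal) ≤ (fderiv ℝ g z : E n →ₗ[ℝ] E n).rank := by
    refine h4.eventually ((isOpen_setOfPred_nat_le_rank m).mem_nhds ?_)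
    show (m : Cardinal) ≤ (fderiv ℝ g (e x₀) : E n →ₗ[ℝ] E n).rank
    rw [hrk, h2]
    exact hm
  have h6 : ContinuousAt e x₀ := e.continuousAt hxs
  filter_upwards [h6.eventually h5, hev, hs.eventually_nhds] with y hy ⟨hy1, hy2, hy3⟩ hy4
  refine ⟨not_not.2 hy4, ?_⟩
  rw [← (key y hy1 hy2 hy3).2, ← hrk]
  exact hy

end

theorem NullH_union {n : ℕ} {N : Type} [TopologicalSpace N] [ChartedSpace (E n) N] {A B : Set N}
    (hA : NullH n A) (hB : NullH n B) : NullH n (A ∪ B) := fun h hi hl => by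
  rw [preimage_union]
  exact measure_union_null (hA h hi hl) (hB h hi hl)

theorem NullH_mono {n : ℕ} {N : Type} [TopologicalSpace N] [ChartedSpace (E n) N] {A B : Set N}
    (hA : NullH n A) (hB : B ⊆ A) : NullH n B := fun h hi hl =>
  measure_mono_null (preimage_mono hB) (hA h hi hl)

theorem main : S_RKM → S_ENG → S_CELLQ → S_RKQ := by
  intro hRKM hENG hCELL m M N _ _ _ _ _ _ _ _ _ _ _ f hm hB hI
  have : SecondCountableTopology M := ChartedSpace.secondCountable_of_sigmaCompact (E (m + 1)) M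
  set Z : Set M := {x | x ∉ Bad (m + 1) f ∧ m ≤ rk (m + 1) f x}ᶜ with hZ
  have hZc : IsClosed Z := (rk_open f m).isClosed_compl
  have hBZ : Bad (m + 1) f ⊆ Z := fun x hx h => h.1 hx
  have hrk : ∀ x, x ∉ Z → m ≤ rk (m + 1) f x := fun x hx => (not_not.1 hx).2
  have h0 := hRKM (m + 1) M N f f.continuous
  have hfZ : NullH (m + 1) (f '' Z) := by
    refine NullH_mono (NullH_union (NullH_union hB h0) hI) ?_
    rintro _ ⟨x, hx, rfl⟩
    by_cases h1 : x ∈ Bad (m + 1) f
    · exact Or.inl (Or.inl ⟨x, h1, rfl⟩)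
    · have h2 : rk (m + 1) f x < m := by
        by_contra h3
        exact hx ⟨h1, not_lt.1 h3⟩
      rcases Nat.eq_zero_or_pos (rk (m + 1) f x) with h3 | h3
      · exact Or.inl (Or.inr ⟨x, ⟨h1, h3⟩, rfl⟩)
      · exact Or.inr ⟨x, ⟨h1, h3, h2⟩, rfl⟩
  obtain ⟨c, hci, hcl, hcZ⟩ := hENG (m + 1) N (f '' Z) (by omega) (f.isClosed_image.2 hZc) hfZ
  exact hCELL m M N f Z c hB hZc hBZ hrk hci hcl hcZ

end Pool.Agent.N550.CQ.Rkq
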