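import Pool.Agent.N550.CQ.Stm2
import Pool.Agent.H664.Sard
import Pool.Agent.Y641.SH.Level
import Pool.Agent.Y522.Tools

/-!
# CQ/SARD0: the critical values of rank zero of a smooth map have Hausdorff dimension zero
(helper823; the lemmas on Hölder maps and flat points are those of `H664/Sard.lean`)
-/

set_option autoImplicit false

open Set Filter Topology MeasureTheory
open scoped ContDiff Manifold

namespace Pool.Agent.N550.CQ.Sard0

open Pool.Agent.H664.Sard (mvt_pow flat_taylor dimH_image_of_pow dimH_image_le_of_local)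
open Pool.Agent.Y522

noncomputable section

/-- a germ of a smooth function extends to a global smooth function -/
lemma exists_extension {X F : Type} [NormedAddCommGroup X] [NormedSpace ℝ X]
    [FiniteDimensional ℝ X] [NormedAddCommGroup F] [NormedSpace ℝ F] {ψ : X → F} {x : X}
    (hs : ∀ᶠ y in 𝓝 x, ContDiffAt ℝ ∞ ψ y) :
    ∃ Ψ : X → F, ContDiff ℝ ∞ Ψ ∧ Ψ =ᶠ[𝓝 x] ψ := by
  obtain ⟨r, hr, h2⟩ := Metric.eventually_nhds_iff_ball.1 hs
  let b : ContDiffBump x := ⟨r / 4, r / 2, by positivity, by linarith⟩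
  refine ⟨fun y => b y • ψ y, ?_, ?_⟩
  · rw [contDiff_iff_contDiffAt]
    intro y
    by_cases hy : y ∈ Metric.ball x r
    · exact ContDiffAt.smul (b.contDiff (n := ⊤)).contDiffAt (h2 y hy)
    · have h3 : ∀ᶠ z in 𝓝 y, z ∉ Metric.closedBall x (r / 2) := by
        apply (Metric.isClosed_closedBall.isOpen_compl).mem_nhds
        intro hz
        apply hy
        rw [Metric.mem_ball]
        rw [Metric.mem_closedBall] at hz
        linarith
      have h4 : (fun y => b y • ψ y) =ᶠ[𝓝 y] fun _ => 0 := by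
        filter_upwards [h3] with z hz
        have h5 : b z = 0 := b.zero_of_le_dist (by
          rw [Metric.mem_closedBall, not_le] at hz
          exact hz.le)
        rw [h5, zero_smul]
      exact contDiffAt_const.congr_of_eventuallyEq h4
  · filter_upwards [b.eventuallyEq_one] with y hy
    rw [hy]
    simp

/-- a smooth parametrisation of a regular level set -/
lemma exists_param {m : ℕ} {g : E (m + 1) → ℝ} (hg : ContDiff ℝ ∞ g) {p : E (m + 1)}
    (hp : g p = 0) (hd : fderiv ℝ g p ≠ 0) :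
    ∃ γ : E m → E (m + 1), ContDiff ℝ ∞ γ ∧ ∀ᶠ q in 𝓝 p, g q = 0 → q ∈ range γ := by
  obtain ⟨e, he, he0, hev⟩ := Pool.Agent.Y641.SH.stAdapt m (E (m + 1)) g p
    (Eventually.of_forall fun y => hg.contDiffAt.contMDiffAt) (by
      rw [mfderiv_eq_fderiv]
      exact hd)
  obtain ⟨r, hr, hrx, hr1, -⟩ := he.exists_inverse
  rw [he0] at hr
  let J : E m →L[ℝ] E (m + 1) := LinearMap.toContinuousLinearMap
    { toFun := fun x => cn 0 x
      map_add' := fun x y => by
        ext i
        refine Fin.cases ?_ (fun i => ?_) i <;> simp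
      map_smul' := fun c x => by
        ext i
        refine Fin.cases ?_ (fun i => ?_) i <;> simp }
  have hJ : ∀ x, J x = cn 0 x := fun x => rfl
  have hJ0 : J (tl (0 : E (m + 1))) = 0 := by rw [map_zero, map_zero]
  have h1 : ∀ᶠ x in 𝓝 (tl (0 : E (m + 1))), ContDiffAt ℝ ∞ (fun x => r (J x)) x := by
    have h2 : Tendsto J (𝓝 (tl (0 : E (m + 1)))) (𝓝 0) := by
      have := J.continuous.tendsto (tl (0 : E (m + 1)))
      rwa [hJ0] at this
    filter_upwards [h2.eventually hr.eventually] with x hx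
    exact hx.contDiffAt.comp x J.contDiff.contDiffAt
  obtain ⟨Ψ, hΨ, hΨe⟩ := exists_extension h1
  refine ⟨Ψ, hΨ, ?_⟩
  have h3 : Tendsto (fun y => tl (e y)) (𝓝 p) (𝓝 (tl (0 : E (m + 1)))) := by
    have := tl.continuous.continuousAt.comp he.continuousAt (x := p)
    rw [ContinuousAt, Function.comp_apply, he0] at this
    exact this
  filter_upwards [hev, hr1, h3.eventually hΨe] with y h4 h5 h6 h7
  refine ⟨tl (e y), ?_⟩
  rw [h6, hJ]
  rw [h7, hp, sub_zero] at h4
  have h8 : cn 0 (tl (e y)) = e y := by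
    ext i
    refine Fin.cases ?_ (fun i => ?_) i
    · simp [h4]
    · simp
  rw [h8, h5]

/-- the flat points -/
lemma dim_flat {m : ℕ} {F : Type} [NormedAddCommGroup F] [NormedSpace ℝ F] {f : E m → F}
    (hf : ContDiff ℝ ∞ f) :
    dimH (f '' {x | ∀ i, 1 ≤ i → iteratedFDeriv ℝ i f x = 0}) = 0 := by
  set S : Set (E m) := {x | ∀ i, 1 ≤ i → iteratedFDeriv ℝ i f x = 0} with hS
  have hfd : Differentiable ℝ f := hf.differentiable (by simp)
  have key : ∀ n : ℕ, dimH (f '' S) ≤ (m : ENNReal) / ((n + 1 : ℕ) : ENNReal) := by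
    intro n
    refine dimH_image_le_of_local fun x _ => ⟨Metric.closedBall x 1,
      Metric.closedBall_mem_nhds x one_pos, ?_⟩
    have hf2 : ContDiff ℝ n (fderiv ℝ f) :=
      (hf.fderiv_right (m := (n : WithTop ℕ∞)) (by exact_mod_cast le_top))
    obtain ⟨C, hC, h1⟩ := flat_taylor (isCompact_closedBall x (1 : ℝ))
      (convex_closedBall x 1) n (fderiv ℝ f) hf2
    have h2 : ∀ p ∈ S ∩ Metric.closedBall x 1, ∀ q ∈ S ∩ Metric.closedBall x 1,
        dist (f p) (f q) ≤ C * dist p q ^ (n + 1) := by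
      intro p hp q hq
      have h3 : ∀ i < n, iteratedFDeriv ℝ i (fderiv ℝ f) p = 0 := by
        intro i _
        rw [← norm_eq_zero, norm_iteratedFDeriv_fderiv, hp.1 (i + 1) (by omega), norm_zero]
      have h4 := mvt_pow hfd (convex_closedBall x 1) hp.2 hC (h1 p hp.2 h3) q hq.2
      rw [dist_comm (f p), dist_comm p, dist_eq_norm, dist_eq_norm]
      exact h4
    refine (dimH_image_of_pow hC (Nat.succ_pos n) h2).trans ?_
    gcongr
    calc dimH (S ∩ Metric.closedBall x 1) ≤ dimH (univ : Set (E m)) := dimH_mono (subset_univ _)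
      _ = m := by rw [Real.dimH_univ_eq_finrank]; simp
  refine le_antisymm ?_ bot_le
  have ht : Tendsto (fun n : ℕ => (m : ENNReal) / ((n + 1 : ℕ) : ENNReal)) atTop
      (𝓝 ((m : ENNReal) / ⊤)) :=
    ENNReal.Tendsto.const_div
      (ENNReal.tendsto_nat_nhds_top.comp (tendsto_add_atTop_nat 1)) (Or.inr (by simp))
  rw [ENNReal.div_top] at ht
  exact ge_of_tendsto' ht key

theorem dim_rank0 (m : ℕ) : ∀ {F : Type} [NormedAddCommGroup F] [NormedSpace ℝ F] (f : E m → F),
    ContDiff ℝ ∞ f → dimH (f '' {x | fderiv ℝ f x = 0}) = 0 := by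
  induction m with
  | zero =>
    intro F _ _ f _
    exact (Set.subsingleton_of_subsingleton.image f).dimH_zero
  | succ m ih =>
    intro F _ _ f hf
    have hfd : Differentiable ℝ f := hf.differentiable (by simp)
    set S : ℕ → Set (E (m + 1)) := fun j => {x | ∀ i, 1 ≤ i → i ≤ j → iteratedFDeriv ℝ i f x = 0}
      with hS
    have hS1 : ∀ j, 1 ≤ j → ∀ x ∈ S j, fderiv ℝ f x = 0 := by
      intro j hj x hx
      rw [← norm_eq_zero, ← norm_iteratedFDeriv_one, hx 1 le_rfl hj, norm_zero]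
    have hstep : ∀ j, 1 ≤ j → dimH (f '' (S j \ S (j + 1))) ≤ 0 := by
      intro j hj
      refine dimH_image_le_of_local fun p hp => ?_
      have hne : iteratedFDeriv ℝ (j + 1) f p ≠ 0 := by
        intro h0
        apply hp.2
        intro i hi1 hi2
        rcases Nat.lt_or_ge i (j + 1) with h | h
        · exact hp.1 i hi1 (by omega)
        · have : i = j + 1 := le_antisymm hi2 h
          rw [this]; exact h0
      obtain ⟨v, hv⟩ : ∃ v, iteratedFDeriv ℝ (j + 1) f p v ≠ 0 := by
        by_contra hcon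
        push Not at hcon
        exact hne (ContinuousMultilinearMap.ext hcon)
      rw [iteratedFDeriv_succ_apply_left] at hv
      obtain ⟨π, hπ⟩ := SeparatingDual.exists_ne_zero (R := ℝ) hv
      have hcd : ContDiff ℝ ∞ (iteratedFDeriv ℝ j f) := by
        apply hf.iteratedFDeriv_right
        exact_mod_cast le_top
      set T : (ContinuousMultilinearMap ℝ (fun _ : Fin j => E (m + 1)) F) →L[ℝ] F :=
        ContinuousMultilinearMap.apply ℝ (fun _ : Fin j => E (m + 1)) F (Fin.tail v) with hT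
      set w : E (m + 1) → ℝ := fun q => (π.comp T) (iteratedFDeriv ℝ j f q) with hw
      have hwc : ContDiff ℝ ∞ w := (π.comp T).contDiff.comp hcd
      have hw0 : ∀ q ∈ S j, w q = 0 := by
        intro q hq
        rw [hw]
        simp only
        rw [hq j hj le_rfl, map_zero]
      have hwd : fderiv ℝ w p ≠ 0 := by
        intro h0
        have h1 : HasFDerivAt w ((π.comp T).comp (fderiv ℝ (iteratedFDeriv ℝ j f) p)) p :=
          (π.comp T).hasFDerivAt.comp p ((hcd.differentiable (by simp) p).hasFDerivAt)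
        rw [h1.fderiv] at h0
        exact hπ (congrArg (fun A : E (m + 1) →L[ℝ] ℝ => A (v 0)) h0)
      obtain ⟨γ, hγ, hγ2⟩ := exists_param hwc (hw0 p hp.1) hwd
      refine ⟨_, hγ2, ?_⟩
      have h1 := ih (fun x => f (γ x)) (hf.comp hγ)
      rw [← h1]
      apply dimH_mono
      rintro _ ⟨q, ⟨hq1, hq2⟩, rfl⟩
      obtain ⟨x, rfl⟩ := hq2 (hw0 q hq1.1)
      refine ⟨x, ?_, rfl⟩
      have h2 : HasFDerivAt (fun x => f (γ x)) ((fderiv ℝ f (γ x)).comp (fderiv ℝ γ x)) x :=
        (hfd (γ x)).hasFDerivAt.comp x ((hγ.differentiable (by simp) x).hasFDerivAt)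
      rw [mem_ofPred_eq, h2.fderiv, hS1 j hj _ hq1.1, ContinuousLinearMap.zero_comp]
    have hcov : f '' {x | fderiv ℝ f x = 0} ⊆
        f '' {x | ∀ i, 1 ≤ i → iteratedFDeriv ℝ i f x = 0} ∪
          ⋃ j : ℕ, f '' (S (j + 1) \ S (j + 2)) := by
      rintro _ ⟨x, hx, rfl⟩
      by_cases h : ∀ i, 1 ≤ i → iteratedFDeriv ℝ i f x = 0
      · exact Or.inl ⟨x, h, rfl⟩
      · right
        classical
        push Not at h
        set i := Nat.find h with hi
        obtain ⟨hi1, hi2⟩ := Nat.find_spec h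
        have hne1 : i ≠ 1 := by
          intro h1
          apply hi2
          rw [← hi, h1, ← norm_eq_zero, norm_iteratedFDeriv_one, hx, norm_zero]
        refine mem_iUnion.2 ⟨i - 2, x, ⟨?_, ?_⟩, rfl⟩
        · intro k hk1 hk2
          by_contra h3
          exact Nat.find_min h (m := k) (by omega) ⟨hk1, h3⟩
        · intro h3
          exact hi2 (h3 i hi1 (by omega))
    refine le_antisymm ((dimH_mono hcov).trans ?_) bot_le
    rw [dimH_union, dimH_iUnion]
    exact max_le (dim_flat hf).le (iSup_le fun j => hstep (j + 1) (by omega))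

/-- **CQ/SARD0** -/
theorem main : S_SARD0 := by
  intro m n U f hU hf s hs
  have h1 : dimH (f '' {x | x ∈ U ∧ fderiv ℝ f x = 0}) ≤ 0 := by
    refine dimH_image_le_of_local fun x hx => ?_
    have h2 : ∀ᶠ y in 𝓝 x, ContDiffAt ℝ ∞ f y := by
      filter_upwards [hU.mem_nhds hx.1] with y hy
      exact (hf y hy).contDiffAt (hU.mem_nhds hy)
    obtain ⟨Ψ, hΨ, hΨe⟩ := exists_extension h2
    refine ⟨_, hΨe.eventuallyEq_nhds, ?_⟩
    rw [← dim_rank0 m Ψ hΨ]
    apply dimH_mono
    rintro _ ⟨y, ⟨⟨-, hy1⟩, hy2⟩, rfl⟩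
    refine ⟨y, ?_, ?_⟩
    · rw [mem_ofPred_eq, Filter.EventuallyEq.fderiv_eq hy2, hy1]
    · exact hy2.self_of_nhds
  have h2 : dimH (f '' {x | x ∈ U ∧ fderiv ℝ f x = 0}) < (s.toNNReal : ENNReal) :=
    lt_of_le_of_lt h1 (by simpa using hs)
  have h3 := hausdorffMeasure_of_dimH_lt h2
  rwa [Real.coe_toNNReal s hs.le] at h3

end

end Pool.Agent.N550.CQ.Sard0
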