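import Pool.Agent.N550.KH.Stm

/-!
# Project CQ: statements

Homeomorphisms between closed manifolds which are smooth with derivative of corank at most one off an
exceptional set.
`E n` is the Euclidean space of dimension `n`, `LD n f x` says that `f` is a local diffeomorphism
at `x` (both spaces are manifolds modelled on `E n`).
-/

set_option autoImplicit false

open Set Filter Topology Metric Function MeasureTheory
open scoped Manifold ContDiff

noncomputable section

namespace Pool.Agent.N550.CQ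

open Pool.Agent.Y522 Pool.Agent.N550.KH

/-- the rank of the derivative -/
def rk (n : ℕ) {M N : Type} [TopologicalSpace M] [ChartedSpace (E n) M]
    [TopologicalSpace N] [ChartedSpace (E n) N] (f : M → N) (x : M) : ℕ :=
  Module.finrank ℝ (LinearMap.range (mfderiv (𝓡 n) (𝓡 n) f x).toLinearMap)

/-- Smooth homeomorphisms with derivatives of corank at most one become local diffeomorphisms on
a given compact set. -/
def S_COK : Prop :=
  ∀ (m : ℕ) (X Y : Type) [TopologicalSpace X] [T2Space X] [ChartedSpace (E (m + 1)) X]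
    [IsManifold (𝓡 (m + 1)) ∞ X] [TopologicalSpace Y] [ChartedSpace (E (m + 1)) Y]
    [IsManifold (𝓡 (m + 1)) ∞ Y] (f : X ≃ₜ Y) (K : Set X) (O : Set (X × Y)),
    ContMDiff (𝓡 (m + 1)) (𝓡 (m + 1)) ∞ f → IsCompact K → (∀ x ∈ K, m ≤ rk (m + 1) f x) →
    IsOpen O → (∀ x, (x, f x) ∈ O) →
    ∃ (f' : X → Y) (C : Set X), IsCompact C ∧ Bijective f' ∧
      ContMDiff (𝓡 (m + 1)) (𝓡 (m + 1)) ∞ f' ∧ (∀ x ∈ K, LD (m + 1) f' x) ∧
      (∀ x, (x, f' x) ∈ O) ∧ ∀ x, x ∉ C → f' x = f x

/-- Compact sets of one-dimensional Hausdorff measure zero are covered by small disjoint balls. -/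
def S_BALLS : Prop :=
  ∀ (n : ℕ) (K U : Set (E n)), IsCompact K → Measure.hausdorffMeasure 1 K = 0 → IsOpen U →
    K ⊆ U → ∃ (s : ℕ) (w : Fin s → E n) (ρ : Fin s → ℝ), (∀ k, 0 < ρ k) ∧
      (∀ k, closedBall (w k) (ρ k) ⊆ U) ∧
      (∀ k l, k ≠ l → Disjoint (closedBall (w k) (ρ k)) (closedBall (w l) (ρ l))) ∧
      K ⊆ ⋃ k, ball (w k) (ρ k)

/-- Closed null sets in closed manifolds are covered by finitely many disjoint open cells. -/
def S_PCS : Prop :=
  ∀ (n : ℕ) (N : Type) [TopologicalSpace N] [CompactSpace N] [T2Space N] [ChartedSpace (E n) N]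
    [IsManifold (𝓡 n) ∞ N] (B : Set N), 0 < n → IsClosed B → NullH n B →
    ∃ (s : ℕ) (h : Fin s → E n → N), (∀ k, Injective (h k)) ∧ (∀ k z, LD n (h k) z) ∧
      (∀ k l, k ≠ l → Disjoint (range (h k)) (range (h l))) ∧ B ⊆ ⋃ k, range (h k)

/-- Finitely many points of a connected manifold are moved into a given open set. -/
def S_HMG : Prop :=
  ∀ (n s : ℕ) (N : Type) [TopologicalSpace N] [T2Space N] [ConnectedSpace N]
    [ChartedSpace (E n) N] [IsManifold (𝓡 n) ∞ N] (z : Fin s → N) (U : Set N), 1 < n →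
    IsOpen U → U.Nonempty → ∃ D : N → N, IsDf n D ∧ ∀ k, D (z k) ∈ U

/-- Closed null sets in closed connected manifolds lie in an open cell. -/
def S_ENG : Prop :=
  ∀ (n : ℕ) (N : Type) [TopologicalSpace N] [CompactSpace N] [T2Space N] [ConnectedSpace N]
    [ChartedSpace (E n) N] [IsManifold (𝓡 n) ∞ N] (B : Set N), 1 < n → IsClosed B →
    NullH n B → ∃ c : E n → N, Injective c ∧ (∀ z, LD n c z) ∧ B ⊆ range c

/-- The theorem, for exceptional sets in a cell. -/
def S_CELLQ : Prop :=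
  ∀ (m : ℕ) (M N : Type) [TopologicalSpace M] [CompactSpace M] [T2Space M]
    [ChartedSpace (E (m + 1)) M] [IsManifold (𝓡 (m + 1)) ∞ M] [TopologicalSpace N]
    [CompactSpace N] [T2Space N] [ChartedSpace (E (m + 1)) N] [IsManifold (𝓡 (m + 1)) ∞ N]
    (f : M ≃ₜ N) (Z : Set M) (c : E (m + 1) → N), NullH (m + 1) (f '' Bad (m + 1) f) →
    IsClosed Z → Bad (m + 1) f ⊆ Z → (∀ x, x ∉ Z → m ≤ rk (m + 1) f x) →
    Injective c → (∀ z, LD (m + 1) c z) → f '' Z ⊆ range c →
    ∃ G : M ≃ₜ N, ∃ x₀ : M, ∀ x, x ≠ x₀ → LD (m + 1) G x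

end Pool.Agent.N550.CQ
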