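import Pool.Agent.N550.CQ.Stm

/-!
# Project CQ: statements, second part

The images of the sets where the derivative vanishes.
-/

set_option autoImplicit false

open Set Filter Topology Metric Function MeasureTheory
open scoped Manifold ContDiff

noncomputable section

namespace Pool.Agent.N550.CQ

open Pool.Agent.Y522 Pool.Agent.N550.KH

/-- The set of the critical values of rank zero of a smooth map has Hausdorff dimension zero. -/
def S_SARD0 : Prop :=
  ∀ (m n : ℕ) (U : Set (E m)) (f : E m → E n), IsOpen U → ContDiffOn ℝ ∞ f U →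
    ∀ s : ℝ, 0 < s → Measure.hausdorffMeasure s (f '' {x | x ∈ U ∧ fderiv ℝ f x = 0}) = 0

/-- The same for manifolds. -/
def S_RKM : Prop :=
  ∀ (n : ℕ) (M N : Type) [TopologicalSpace M] [SecondCountableTopology M] [ChartedSpace (E n) M]
    [IsManifold (𝓡 n) ∞ M] [TopologicalSpace N] [ChartedSpace (E n) N] [IsManifold (𝓡 n) ∞ N]
    (f : M → N), Continuous f → NullH n (f '' {x | x ∉ Bad n f ∧ rk n f x = 0})

/-- The theorem, for maps without points of rank between one and `n - 2`. -/
def S_RKQ : Prop :=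
  ∀ (m : ℕ) (M N : Type) [TopologicalSpace M] [CompactSpace M] [T2Space M]
    [ChartedSpace (E (m + 1)) M] [IsManifold (𝓡 (m + 1)) ∞ M] [TopologicalSpace N]
    [CompactSpace N] [T2Space N] [ConnectedSpace N] [ChartedSpace (E (m + 1)) N]
    [IsManifold (𝓡 (m + 1)) ∞ N] (f : M ≃ₜ N), 0 < m →
    NullH (m + 1) (f '' Bad (m + 1) f) →
    NullH (m + 1) (f '' {x | x ∉ Bad (m + 1) f ∧ 0 < rk (m + 1) f x ∧ rk (m + 1) f x < m}) →
    ∃ G : M ≃ₜ N, ∃ x₀ : M, ∀ x, x ≠ x₀ → LD (m + 1) G x

end Pool.Agent.N550.CQ
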